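import Pool.Agent.helper27.TD.Spec2

set_option autoImplicit false

/-! # MP_16912e_nt, row td:CN2: the sum over the cells -/

namespace Pool.Agent.helper27.TD

open Finset Polynomial Pool.Agent.helper47.RA

lemma CN2_fib {α β : Type} [DecidableEq β] (s : Finset α) (t : Finset β) (f : α → β)
    (hf : ∀ a ∈ s, f a ∈ t) (F : ℝ) (hF : ∀ b ∈ t, ((s.filter (fun a => f a = b)).card : ℝ) ≤ F) :
    (s.card : ℝ) ≤ t.card * F := by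
  rw [Finset.card_eq_sum_card_fiberwise (f := f) (t := t) hf]
  push_cast
  refine (Finset.sum_le_sum hF).trans ?_
  rw [Finset.sum_const, nsmul_eq_mul]

lemma CN2_cls (q j : ℕ) (hq : q.Prime) (g n : ℤ) (hg : ¬ (q : ℤ) ∣ g) :
    ∃ c ∈ Finset.range (q ^ j), (q : ℤ) ^ j ∣ n - (c : ℤ) * g := by
  have hp : Prime (q : ℤ) := Nat.prime_iff_prime_int.1 hq
  have hcop : IsCoprime ((q : ℤ) ^ j) g :=
    IsCoprime.pow_left ((Prime.coprime_iff_not_dvd hp).2 hg)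
  obtain ⟨a, b, hab⟩ := hcop
  have hpos : (0 : ℤ) < (q : ℤ) ^ j := by
    have : (0 : ℤ) < q := by exact_mod_cast hq.pos
    positivity
  refine ⟨((n * b) % (q : ℤ) ^ j).toNat, ?_, ?_⟩
  · rw [Finset.mem_range]
    have h1 := Int.emod_lt_of_pos (n * b) hpos
    have h2 := Int.emod_nonneg (n * b) hpos.ne'
    zify
    rw [Int.toNat_of_nonneg h2]
    exact h1
  · have h2 := Int.emod_nonneg (n * b) hpos.ne'
    rw [Int.toNat_of_nonneg h2, Int.emod_def]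
    refine ⟨n * a + (n * b / (q : ℤ) ^ j) * g, ?_⟩
    linear_combination (-n) * hab

lemma CN2_log (δ : ℝ) (hδ : 0 < δ) : ∃ C : ℝ, 1 ≤ C ∧ ∀ m : ℕ, 1 ≤ m →
    ((2 * (Nat.log 2 m + 1) + 1 : ℕ) : ℝ) ≤ C * (m : ℝ) ^ δ := by
  have hl2 : 0 < Real.log 2 := Real.log_pos (by norm_num)
  have hdl : 0 < δ * Real.log 2 := mul_pos hδ hl2
  refine ⟨3 + 2 / (δ * Real.log 2), by have := div_pos (show (0:ℝ) < 2 by norm_num) hdl; linarith,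
    fun m hm => ?_⟩
  have hmR : (1 : ℝ) ≤ m := by exact_mod_cast hm
  have h1 : (1 : ℝ) ≤ (m : ℝ) ^ δ := Real.one_le_rpow hmR hδ.le
  have h2 : (2 : ℝ) ^ (Nat.log 2 m) ≤ m := by
    have := Nat.pow_log_le_self 2 (show m ≠ 0 by omega)
    exact_mod_cast this
  have h3 : ((Nat.log 2 m : ℕ) : ℝ) * (δ * Real.log 2) ≤ (m : ℝ) ^ δ := by
    have h4 : ((2 : ℝ) ^ (Nat.log 2 m)) ^ δ ≤ (m : ℝ) ^ δ :=
      Real.rpow_le_rpow (by positivity) h2 hδ.le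
    have h5 : ((2 : ℝ) ^ (Nat.log 2 m)) ^ δ = Real.exp ((Nat.log 2 m : ℕ) * (δ * Real.log 2)) := by
      rw [← Real.rpow_natCast, ← Real.rpow_mul (by norm_num), Real.rpow_def_of_pos (by norm_num)]
      congr 1
      ring
    rw [h5] at h4
    have h6 := Real.add_one_le_exp (((Nat.log 2 m : ℕ) : ℝ) * (δ * Real.log 2))
    linarith
  have h7 : ((Nat.log 2 m : ℕ) : ℝ) ≤ (m : ℝ) ^ δ / (δ * Real.log 2) := by
    rw [le_div_iff₀ hdl]; exact h3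
  push_cast
  have h8 : (3 + 2 / (δ * Real.log 2)) * (m : ℝ) ^ δ =
      3 * (m : ℝ) ^ δ + 2 * ((m : ℝ) ^ δ / (δ * Real.log 2)) := by ring
  rw [h8]
  linarith

/-- range of the logarithm -/
lemma CN2_range (m : ℕ) (hm : 1 ≤ m) (r : ℝ) (h1 : r ≤ m) (h2 : 1 / (m : ℝ) ≤ r) :
    Int.log 2 r ∈ Finset.Icc (-((Nat.log 2 m + 1 : ℕ) : ℤ)) ((Nat.log 2 m + 1 : ℕ) : ℤ) := by
  have hmR : (0 : ℝ) < m := by exact_mod_cast hm
  have hr : 0 < r := lt_of_lt_of_le (by positivity) h2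
  have h3 : m < 2 ^ (Nat.log 2 m + 1) := Nat.lt_pow_succ_log_self (by norm_num) m
  have h3R : (m : ℝ) < 2 ^ (Nat.log 2 m + 1) := by exact_mod_cast h3
  rw [Finset.mem_Icc]
  constructor
  · rw [← Int.zpow_le_iff_le_log (by norm_num) hr]
    rw [zpow_neg, zpow_natCast]
    refine le_trans ?_ h2
    push_cast
    rw [one_div]
    exact inv_anti₀ hmR h3R.le
  · have h4 : Int.log 2 r < ((Nat.log 2 m + 1 : ℕ) : ℤ) + 1 := by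
      rw [← Int.lt_zpow_iff_log_lt (by norm_num) hr]
      refine lt_of_le_of_lt h1 (lt_trans h3R ?_)
      push_cast
      rw [zpow_add_one₀ (by norm_num), zpow_add_one₀ (by norm_num), zpow_natCast, pow_succ]
      have : (0 : ℝ) < 2 ^ (Nat.log 2 m) := by positivity
      linarith
    omega

/-- a conjugate pair of bounded real numbers with product at least 1 -/
lemma CN2_pair (z : ℝ) (hz : 0 ≤ z) (x y : ℤ) (Hh m : ℕ) (hm : (1 + √z) * Hh ≤ m)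
    (hx : |x| ≤ Hh) (hy : |y| ≤ Hh) (hprod : 1 ≤ |(x : ℝ) ^ 2 - z * (y : ℝ) ^ 2|) :
    |(x : ℝ) + √z * y| ≤ m ∧ 1 / (m : ℝ) ≤ |(x : ℝ) + √z * y| := by
  have hxR : |(x : ℝ)| ≤ Hh := by exact_mod_cast hx
  have hyR : |(y : ℝ)| ≤ Hh := by exact_mod_cast hy
  have hs0 : 0 ≤ √z := Real.sqrt_nonneg z
  have key : |(x : ℝ)| + √z * |(y : ℝ)| ≤ m := by
    have h1 : √z * |(y : ℝ)| ≤ √z * Hh := mul_le_mul_of_nonneg_left hyR hs0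
    linarith
  have hp : |(x : ℝ) + √z * y| ≤ m := by
    refine (abs_add_le _ _).trans ?_
    rw [abs_mul, abs_of_nonneg hs0]
    exact key
  have hm' : |(x : ℝ) - √z * y| ≤ m := by
    refine (abs_sub _ _).trans ?_
    rw [abs_mul, abs_of_nonneg hs0]
    exact key
  refine ⟨hp, ?_⟩
  have hmul : |(x : ℝ) + √z * y| * |(x : ℝ) - √z * y| = |(x : ℝ) ^ 2 - z * (y : ℝ) ^ 2| := by
    rw [← abs_mul]
    congr 1
    have := Real.sq_sqrt hz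
    linear_combination (-(y : ℝ) ^ 2) * this
  have hpos : (0 : ℝ) < m := by
    by_contra hcon
    push Not at hcon
    have h1 : |(x : ℝ) + √z * y| = 0 := le_antisymm (hp.trans hcon) (abs_nonneg _)
    rw [h1, zero_mul] at hmul
    linarith
  rw [div_le_iff₀ hpos]
  calc (1 : ℝ) ≤ |(x : ℝ) + √z * y| * |(x : ℝ) - √z * y| := by rw [hmul]; exact hprod
    _ ≤ _ := mul_le_mul_of_nonneg_left hm' (abs_nonneg _)

lemma CN2_abs (y : ℤ) (m : ℕ) (h : y ^ 2 ≤ (m : ℤ) ^ 2) : |y| ≤ (m : ℤ) :=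
  abs_le_of_sq_le_sq h (by positivity)

/-- sizes of the data in terms of powers of `Z` -/
lemma CN2_pow (Z l p q₁ q₂ l₁ l₂ j₁ j₂ : ℕ) (hZ : 5 ≤ Z) (hq₁ : q₁ ≤ 4 * Z) (hq₂ : q₂ ≤ 4 * Z)
    (hl : l₁ + l₂ = 2 * l) (e₁ : l₁ + 2 * j₁ = p) (e₂ : l₂ + 2 * j₂ = p) :
    q₁ ^ l₁ * q₂ ^ l₂ ≤ (4 * Z) ^ (2 * l) ∧ (4 * Z) ^ l ≤ Z ^ (2 * l) ∧
      q₁ ^ l₁ * q₂ ^ l₂ ≤ Z ^ (4 * p) ∧ q₁ ^ j₁ * q₂ ^ j₂ ≤ Z ^ (2 * p) ∧
      (q₁ * q₂) ^ p ≤ Z ^ (4 * p) := by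
  have h4 : 4 * Z ≤ Z ^ 2 := by nlinarith
  have hL : q₁ ^ l₁ * q₂ ^ l₂ ≤ (4 * Z) ^ (2 * l) := by
    rw [← hl, pow_add]
    exact Nat.mul_le_mul (Nat.pow_le_pow_left hq₁ _) (Nat.pow_le_pow_left hq₂ _)
  have hpw : ∀ n : ℕ, (4 * Z) ^ n ≤ Z ^ (2 * n) := by
    intro n
    rw [pow_mul]
    exact Nat.pow_le_pow_left h4 n
  have hZ1 : 1 ≤ Z := by omega
  refine ⟨hL, hpw l, ?_, ?_, ?_⟩
  · refine hL.trans ((hpw (2 * l)).trans ?_)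
    exact Nat.pow_le_pow_right hZ1 (by omega)
  · calc q₁ ^ j₁ * q₂ ^ j₂ ≤ (4 * Z) ^ j₁ * (4 * Z) ^ j₂ :=
          Nat.mul_le_mul (Nat.pow_le_pow_left hq₁ _) (Nat.pow_le_pow_left hq₂ _)
      _ = (4 * Z) ^ (j₁ + j₂) := (pow_add _ _ _).symm
      _ ≤ Z ^ (2 * (j₁ + j₂)) := hpw _
      _ ≤ Z ^ (2 * p) := Nat.pow_le_pow_right hZ1 (by omega)
  · calc (q₁ * q₂) ^ p ≤ ((4 * Z) * (4 * Z)) ^ p :=
          Nat.pow_le_pow_left (Nat.mul_le_mul hq₁ hq₂) _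
      _ = (4 * Z) ^ (2 * p) := by rw [← pow_two, ← pow_mul]
      _ ≤ Z ^ (2 * (2 * p)) := hpw _
      _ = Z ^ (4 * p) := by congr 1; ring

/-- the sizes of a tower -/
lemma CN2_tw {p q₁ q₂ l₁ l₂ j₁ j₂ Z X l : ℕ} {D k w x : ℤ} {P : Pt} (hZ : 5 ≤ Z)
    (hq₁ : q₁ ≤ 4 * Z) (hq₂ : q₂ ≤ 4 * Z)
    (hl : l₁ + l₂ = 2 * l) (e₁ : l₁ + 2 * j₁ = p) (e₂ : l₂ + 2 * j₂ = p) (hp : 2 ≤ p)
    (hX : X ≤ Z ^ (2 * p)) (hDX : |D| ≤ 2 * X) (hD0 : 1 ≤ |D|)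
    (h : Tw p q₁ q₂ (q₁ ^ l₁ * q₂ ^ l₂) (q₁ ^ j₁ * q₂ ^ j₂) D k w x P) :
    |w| ≤ ((Z ^ (4 * p) : ℕ) : ℤ) ∧ (∀ i, |P i| ≤ ((Z ^ (4 * p) : ℕ) : ℤ)) ∧
      |k| ≤ ((5 * (4 * Z) ^ l : ℕ) : ℤ) := by
  obtain ⟨h1, h2, h3, h4, h5⟩ := CN2_pow Z l p q₁ q₂ l₁ l₂ j₁ j₂ hZ hq₁ hq₂ hl e₁ e₂
  have hZ1 : 1 ≤ Z := by omega
  have hZ' : (5 : ℤ) ≤ Z := by exact_mod_cast hZ
  have h3' : ((q₁ ^ l₁ * q₂ ^ l₂ : ℕ) : ℤ) ≤ (Z : ℤ) ^ (4 * p) := by exact_mod_cast h3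
  have h4' : ((q₁ ^ j₁ * q₂ ^ j₂ : ℕ) : ℤ) ≤ (Z : ℤ) ^ (2 * p) := by exact_mod_cast h4
  have h5' : ((q₁ : ℤ) * q₂) ^ p ≤ (Z : ℤ) ^ (4 * p) := by exact_mod_cast h5
  have hX' : (X : ℤ) ≤ (Z : ℤ) ^ (2 * p) := by exact_mod_cast hX
  have hL0 : (0 : ℤ) ≤ ((q₁ ^ l₁ * q₂ ^ l₂ : ℕ) : ℤ) := by positivity
  have hJ0 : (0 : ℤ) ≤ ((q₁ ^ j₁ * q₂ ^ j₂ : ℕ) : ℤ) := by positivity
  -- everything is bounded by 50 Z^(6p)
  have hbig : ∀ y : ℤ, y ^ 2 ≤ 50 * (Z : ℤ) ^ (6 * p) → |y| ≤ ((Z ^ (4 * p) : ℕ) : ℤ) := by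
    intro y hy
    refine CN2_abs y _ (hy.trans ?_)
    push_cast
    rw [← pow_mul]
    calc 50 * (Z : ℤ) ^ (6 * p) ≤ (Z : ℤ) ^ 4 * (Z : ℤ) ^ (6 * p) := by
          refine mul_le_mul_of_nonneg_right ?_ (by positivity)
          calc (50 : ℤ) ≤ 5 ^ 4 := by norm_num
            _ ≤ (Z : ℤ) ^ 4 := pow_le_pow_left₀ (by norm_num) hZ' _
      _ = (Z : ℤ) ^ (6 * p + 4) := by rw [← pow_add]; congr 1; ring
      _ ≤ (Z : ℤ) ^ (4 * p * 2) := pow_le_pow_right₀ (by linarith) (by omega)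
  have hm46 : (Z : ℤ) ^ (4 * p) * (Z : ℤ) ^ (2 * p) = (Z : ℤ) ^ (6 * p) := by
    rw [← pow_add]; congr 1; ring
  have hle46 : (Z : ℤ) ^ (4 * p) ≤ (Z : ℤ) ^ (6 * p) := pow_le_pow_right₀ (by linarith) (by omega)
  have hle26 : (Z : ℤ) ^ (2 * p) ≤ (Z : ℤ) ^ (6 * p) := pow_le_pow_right₀ (by linarith) (by omega)
  have hpos6 : (0 : ℤ) ≤ (Z : ℤ) ^ (6 * p) := by positivity
  have hpos2 : (0 : ℤ) ≤ (Z : ℤ) ^ (2 * p) := by positivity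
  have hpos4 : (0 : ℤ) ≤ (Z : ℤ) ^ (4 * p) := by positivity
  refine ⟨?_, ?_, ?_⟩
  · refine hbig w ?_
    have h6 : w ^ 2 ≤ |D| * w ^ 2 := by nlinarith [sq_nonneg w]
    linarith [h.bw]
  · intro i
    refine hbig (P i) ?_
    fin_cases i
    · show P 0 ^ 2 ≤ _
      have h6 : ((q₁ ^ l₁ * q₂ ^ l₂ : ℕ) : ℤ) * ((q₁ ^ j₁ * q₂ ^ j₂ : ℕ) : ℤ) ≤
          (Z : ℤ) ^ (4 * p) * (Z : ℤ) ^ (2 * p) := mul_le_mul h3' h4' hJ0 hpos4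
      linarith [h.bg]
    · show P 1 ^ 2 ≤ _
      linarith [h.bn]
    · show P 2 ^ 2 ≤ _
      have h6 : ((q₁ ^ l₁ * q₂ ^ l₂ : ℕ) : ℤ) * |D| ≤
          (Z : ℤ) ^ (4 * p) * (2 * (Z : ℤ) ^ (2 * p)) :=
        mul_le_mul h3' (by linarith) (abs_nonneg _) hpos4
      have h7 := h.bu
      nlinarith
    · show P 3 ^ 2 ≤ _
      linarith [h.bv]
  · refine CN2_abs k _ (h.bk.trans ?_)
    push_cast
    have h6 : ((q₁ ^ l₁ * q₂ ^ l₂ : ℕ) : ℤ) ≤ (4 * (Z : ℤ)) ^ (2 * l) := by exact_mod_cast h1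
    push_cast at h6
    have h7 : (5 * (4 * (Z : ℤ)) ^ l) ^ 2 = 25 * (4 * (Z : ℤ)) ^ (2 * l) := by
      rw [mul_pow, ← pow_mul, mul_comm l 2]; norm_num
    rw [h7]
    linarith

lemma CN2_cop {q₁ q₂ l₁ l₂ : ℕ} (hq₁ : q₁.Prime) (hq₂ : q₂.Prime) {k : ℤ}
    (h₁ : ¬ (q₁ : ℤ) ∣ k) (h₂ : ¬ (q₂ : ℤ) ∣ k) : (k.natAbs).Coprime (q₁ ^ l₁ * q₂ ^ l₂) := by
  refine Nat.Coprime.mul_right (Nat.Coprime.pow_right _ ?_) (Nat.Coprime.pow_right _ ?_)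
  · rw [Nat.coprime_comm, Nat.Prime.coprime_iff_not_dvd hq₁]
    intro h
    exact h₁ (Int.natCast_dvd.2 h)
  · rw [Nat.coprime_comm, Nat.Prime.coprime_iff_not_dvd hq₂]
    intro h
    exact h₂ (Int.natCast_dvd.2 h)

theorem CN2 (h1 : TW2_stmt) (h2 : LAT_stmt) (h3 : VAN2_stmt) (h4 : CC2_stmt) (h5 : EX2_stmt) :
    CN2_stmt := by
  classical
  intro b p l₁ l₂ j₁ j₂ l ρ₁ ρ₂ hb hp hbp odd₁ odd₂ e₁ e₂ hnum hl1 h3l
  obtain ⟨K, hK, hvan⟩ := h3 b p l₁ l₂ j₁ j₂ l ρ₁ ρ₂ hb hnum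
  have hl := hnum.hl
  refine ⟨K, hK, fun ε hε => ?_⟩
  set E : ℕ := 6 * p + 1 with hE
  have hEpos : (0 : ℝ) < (E : ℝ) := by
    have : 0 < E := by omega
    exact_mod_cast this
  set δ : ℝ := ε / (5 * E) with hδdef
  have hδ : 0 < δ := by positivity
  obtain ⟨CL, hCL, hlat⟩ := h2 δ hδ
  obtain ⟨CG, hCG, hlog⟩ := CN2_log δ hδ
  obtain ⟨CC, hCC, hcc⟩ := h4 b p l₁ l₂ j₁ j₂ hp hbp δ hδ
  obtain ⟨CE, hCE, hex⟩ := h5 p l₁ l₂ j₁ j₂ l hl ε hε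
  refine ⟨CE + 11 * 4 ^ l * (CL ^ 2 * CG ^ 2 * CC), by positivity, ?_⟩
  intro Z X q₁ q₂ hZ hX hKX hq₁ hq₂ hne hZ₁ hZ₁' hZ₂ hZ₂' T hT
  have hKX' : K * X ≤ Z ^ (l + 1) := by
    have : 2 + (l - 1) = l + 1 := by omega
    rwa [this] at hKX
  have hXZ : X ≤ Z ^ (l + 1) := le_trans (Nat.le_mul_of_pos_left X (by omega)) hKX'
  have hPar : Par p q₁ q₂ l₁ l₂ j₁ j₂ :=
    ⟨hq₁, hq₂, hne, by omega, by omega, odd₁, odd₂, e₁, e₂⟩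
  have hZ1 : 1 ≤ Z := by omega
  have hXp : X ≤ Z ^ (2 * p) := hXZ.trans (Nat.pow_le_pow_right hZ1 (by omega))
  obtain ⟨g1, g2, g3, g4, g5⟩ := CN2_pow Z l p q₁ q₂ l₁ l₂ j₁ j₂ hZ hZ₁' hZ₂' hl e₁ e₂
  have hJ : Z ^ (p - l) ≤ q₁ ^ j₁ * q₂ ^ j₂ := by
    calc Z ^ (p - l) = Z ^ j₁ * Z ^ j₂ := by rw [← pow_add]; congr 1; omega
      _ ≤ _ := Nat.mul_le_mul (Nat.pow_le_pow_left hZ₁.le _) (Nat.pow_le_pow_left hZ₂.le _)
  have hXJ : X ≤ (q₁ ^ j₁ * q₂ ^ j₂) ^ 2 := by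
    calc X ≤ Z ^ (l + 1) := hXZ
      _ ≤ Z ^ ((p - l) * 2) := Nat.pow_le_pow_right hZ1 (by omega)
      _ = (Z ^ (p - l)) ^ 2 := by rw [pow_mul]
      _ ≤ _ := Nat.pow_le_pow_left hJ 2
  have hX2 : X ^ 2 ≤ (q₁ * q₂) ^ p := by
    calc X ^ 2 ≤ (Z ^ (l + 1)) ^ 2 := Nat.pow_le_pow_left hXZ 2
      _ = Z ^ ((l + 1) * 2) := by rw [pow_mul]
      _ ≤ Z ^ (2 * p) := Nat.pow_le_pow_right hZ1 (by omega)
      _ = (Z * Z) ^ p := by rw [← pow_two, ← pow_mul]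
      _ ≤ _ := Nat.pow_le_pow_left (Nat.mul_le_mul hZ₁.le hZ₂.le) _
  set L : ℕ := q₁ ^ l₁ * q₂ ^ l₂ with hLdef
  set J : ℕ := q₁ ^ j₁ * q₂ ^ j₂ with hJdef
  -- towers
  have htow : ∀ D : ℤ, ∃ (k w x : ℤ) (P : Pt), D ∈ T → Tw p q₁ q₂ L J D k w x P := by
    intro D
    by_cases hD : D ∈ T
    · obtain ⟨hf, hD1, hD2, hs⟩ := hT D hD
      have hDJ : |D| ≤ 4 * (J : ℤ) ^ 2 := by
        have h6 : (X : ℤ) ≤ (J : ℤ) ^ 2 := by exact_mod_cast hXJ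
        have h7 : (0 : ℤ) ≤ (J : ℤ) ^ 2 := by positivity
        linarith
      obtain ⟨k, w, x, P, h⟩ := h1 p q₁ q₂ l₁ l₂ j₁ j₂ D hPar (by omega) hf hDJ hs
      exact ⟨k, w, x, P, fun _ => h⟩
    · exact ⟨0, 0, 0, 0, fun h => absurd h hD⟩
  choose k w x P hTw using htow
  have hD1 : ∀ D ∈ T, 1 ≤ |D| := by
    intro D hD
    have h6 := (hT D hD).2.1
    have h7 : (1 : ℤ) ≤ X := by exact_mod_cast hX
    linarith
  have hsz : ∀ D ∈ T, |w D| ≤ ((Z ^ (4 * p) : ℕ) : ℤ) ∧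
      (∀ i, |P D i| ≤ ((Z ^ (4 * p) : ℕ) : ℤ)) ∧ |k D| ≤ ((5 * (4 * Z) ^ l : ℕ) : ℤ) := by
    intro D hD
    exact CN2_tw hZ hZ₁' hZ₂' hl e₁ e₂ (by omega) hXp (hT D hD).2.2.1 (hD1 D hD) (hTw D hD)
  -- lattice labels
  have hS : ∀ m : ℕ, ∃ S : Finset (ℕ × ℕ × ℕ), 0 < m → m.Coprime L →
      (S.card : ℝ) ≤ CL * (m : ℝ) ^ δ ∧ (∀ t ∈ S, m ∣ t.1 ^ 2 * t.2.1) ∧
        ∀ x y : ℤ, (m : ℤ) ∣ x ^ 2 - L * y ^ 2 → ∃ t ∈ S, InLab t x y := by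
    intro m
    by_cases hm : 0 < m ∧ m.Coprime L
    · obtain ⟨S, hS⟩ := hlat m L hm.1 hm.2
      exact ⟨S, fun _ _ => hS⟩
    · exact ⟨∅, fun ha hb => absurd ⟨ha, hb⟩ hm⟩
  choose S hS using hS
  set Tb := T.filter (fun D => (q₁ : ℤ) ∣ k D ∨ (q₂ : ℤ) ∣ k D) with hTb
  set Tg := T.filter (fun D => ¬ ((q₁ : ℤ) ∣ k D ∨ (q₂ : ℤ) ∣ k D)) with hTg
  have hcard : T.card = Tb.card + Tg.card := by
    rw [hTb, hTg, Finset.card_filter_add_card_filter_not]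
  have hbad : (Tb.card : ℝ) ≤ CE * (Z : ℝ) ^ l * (Z : ℝ) ^ ε := by
    refine hex Z X q₁ q₂ hZ hX hXZ hPar hZ₁ hZ₁' hZ₂ hZ₂' Tb fun D hD => ?_
    rw [hTb, Finset.mem_filter] at hD
    obtain ⟨hDT, hDk⟩ := hD
    exact ⟨(hT D hDT).2.1, (hT D hDT).2.2.1, k D, w D, x D, P D, hTw D hDT, hDk⟩
  -- facts on the good ones
  have hgT : ∀ D ∈ Tg, D ∈ T := fun D hD => (Finset.mem_filter.1 hD).1
  have hgk : ∀ D ∈ Tg, ¬ (q₁ : ℤ) ∣ k D ∧ ¬ (q₂ : ℤ) ∣ k D := by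
    intro D hD
    have := (Finset.mem_filter.1 hD).2
    push Not at this
    exact this
  have hkpos : ∀ D ∈ Tg, 0 < (k D).natAbs := fun D hD => Int.natAbs_pos.2 (hTw D (hgT D hD)).k0
  have hkcop : ∀ D ∈ Tg, (k D).natAbs.Coprime L := fun D hD =>
    CN2_cop hq₁ hq₂ (hgk D hD).1 (hgk D hD).2
  have hm₁ : ∀ D : ℤ, ∃ t : ℕ × ℕ × ℕ, D ∈ Tg → t ∈ S (k D).natAbs ∧ InLab t (P D 0) (P D 1) := by
    intro D
    by_cases hD : D ∈ Tg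
    · obtain ⟨_, _, h8⟩ := hS (k D).natAbs (hkpos D hD) (hkcop D hD)
      obtain ⟨t, ht, ht2⟩ := h8 (P D 0) (P D 1) (by
        rw [Int.natAbs_dvd, (hTw D (hgT D hD)).hW]
        exact (dvd_mul_right (k D) (w D)).neg_right)
      exact ⟨t, fun _ => ⟨ht, ht2⟩⟩
    · exact ⟨0, fun h => absurd h hD⟩
  have hm₂ : ∀ D : ℤ, ∃ t : ℕ × ℕ × ℕ, D ∈ Tg →
      t ∈ S ((k D).natAbs ^ 2) ∧ InLab t (P D 2) (P D 3) := by
    intro D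
    by_cases hD : D ∈ Tg
    · obtain ⟨_, _, h8⟩ := hS ((k D).natAbs ^ 2) (pow_pos (hkpos D hD) 2)
        (Nat.Coprime.pow_left 2 (hkcop D hD))
      obtain ⟨t, ht, ht2⟩ := h8 (P D 2) (P D 3) (by
        have h9 : (((k D).natAbs ^ 2 : ℕ) : ℤ) = (k D) ^ 2 := by
          push_cast
          rw [sq_abs]
        rw [h9, (hTw D (hgT D hD)).hN]
        exact dvd_mul_left _ _)
      exact ⟨t, fun _ => ⟨ht, ht2⟩⟩
    · exact ⟨0, fun h => absurd h hD⟩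
  choose m₁ hm₁ using hm₁
  choose m₂ hm₂ using hm₂
  set W : ℝ := ((Z ^ E : ℕ) : ℝ) ^ δ with hW
  have hZR : (1 : ℝ) ≤ Z := by exact_mod_cast hZ1
  have hZE1 : 1 ≤ Z ^ E := Nat.one_le_pow _ _ (by omega)
  have hW1 : 1 ≤ W := by
    rw [hW]
    exact Real.one_le_rpow (by exact_mod_cast hZE1) hδ.le
  have hW0 : 0 ≤ W := by linarith
  have hmono : ∀ m : ℕ, m ≤ Z ^ E → (m : ℝ) ^ δ ≤ W := by
    intro m hm
    exact Real.rpow_le_rpow (Nat.cast_nonneg _) (by exact_mod_cast hm) hδ.le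
  have hsqrt : (1 + √(L : ℝ)) * ((Z ^ (4 * p) : ℕ) : ℝ) ≤ ((Z ^ E : ℕ) : ℝ) := by
    have h6 : √(L : ℝ) ≤ ((Z ^ (2 * p) : ℕ) : ℝ) := by
      refine Real.sqrt_le_iff.2 ⟨by positivity, ?_⟩
      have : L ≤ (Z ^ (2 * p)) ^ 2 := by
        rw [← pow_mul]
        refine g3.trans (le_of_eq ?_)
        congr 1
        ring
      exact_mod_cast this
    have h7 : (1 : ℝ) + √(L : ℝ) ≤ ((Z ^ (2 * p + 1) : ℕ) : ℝ) := by
      have h8 : 1 + Z ^ (2 * p) ≤ Z ^ (2 * p + 1) := by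
        rw [pow_succ]
        have : 1 ≤ Z ^ (2 * p) := Nat.one_le_pow _ _ (by omega)
        nlinarith
      have h9 : (1 : ℝ) + ((Z ^ (2 * p) : ℕ) : ℝ) ≤ ((Z ^ (2 * p + 1) : ℕ) : ℝ) := by
        exact_mod_cast h8
      linarith
    calc (1 + √(L : ℝ)) * ((Z ^ (4 * p) : ℕ) : ℝ) ≤
        ((Z ^ (2 * p + 1) : ℕ) : ℝ) * ((Z ^ (4 * p) : ℕ) : ℝ) :=
          mul_le_mul_of_nonneg_right h7 (Nat.cast_nonneg _)
      _ = ((Z ^ E : ℕ) : ℝ) := by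
          rw [← Nat.cast_mul, ← pow_add]
          congr 2
          omega
  set Lg : ℤ := ((Nat.log 2 (Z ^ E) + 1 : ℕ) : ℤ) with hLg
  let fa : ℤ → ℤ := fun D => Int.log 2 |(P D 0 : ℝ) + √(L : ℝ) * P D 1|
  let fe : ℤ → ℤ := fun D => Int.log 2 |(P D 2 : ℝ) + √(L : ℝ) * P D 3|
  have hfa : ∀ D ∈ Tg, fa D ∈ Finset.Icc (-Lg) Lg := by
    intro D hD
    have h6 := hTw D (hgT D hD)
    have h7 := hsz D (hgT D hD)
    have h8 := CN2_pair (L : ℝ) (Nat.cast_nonneg _) (P D 0) (P D 1) (Z ^ (4 * p)) (Z ^ E) hsqrt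
      (h7.2.1 0) (h7.2.1 1) (by
        have h9 : ((P D 0 : ℤ) : ℝ) ^ 2 - (L : ℝ) * ((P D 1 : ℤ) : ℝ) ^ 2 =
            ((-(k D * w D) : ℤ) : ℝ) := by
          rw [← h6.hW]; push_cast; ring
        rw [h9]
        have h10 : 1 ≤ |-(k D * w D)| := by
          rw [abs_neg]
          exact Int.one_le_abs (mul_ne_zero h6.k0 h6.w0)
        exact_mod_cast h10)
    exact CN2_range (Z ^ E) hZE1 _ h8.1 h8.2
  have hfe : ∀ D ∈ Tg, fe D ∈ Finset.Icc (-Lg) Lg := by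
    intro D hD
    have h6 := hTw D (hgT D hD)
    have h7 := hsz D (hgT D hD)
    have h8 := CN2_pair (L : ℝ) (Nat.cast_nonneg _) (P D 2) (P D 3) (Z ^ (4 * p)) (Z ^ E) hsqrt
      (h7.2.1 2) (h7.2.1 3) (by
        have h9 : ((P D 2 : ℤ) : ℝ) ^ 2 - (L : ℝ) * ((P D 3 : ℤ) : ℝ) ^ 2 =
            ((D * (k D) ^ 2 : ℤ) : ℝ) := by
          rw [← h6.hN]; push_cast; ring
        rw [h9]
        have h11 : D ≠ 0 := by
          have := hD1 D (hgT D hD)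
          intro h0
          rw [h0] at this
          simp at this
        have h10 : 1 ≤ |D * (k D) ^ 2| := Int.one_le_abs (mul_ne_zero h11 (pow_ne_zero 2 h6.k0))
        exact_mod_cast h10)
    exact CN2_range (Z ^ E) hZE1 _ h8.1 h8.2
  -- the fibres over `k`
  have hk5 : 5 * (4 * Z) ^ l ≤ Z ^ (2 * l + 1) := by
    rw [pow_succ, mul_comm]
    exact Nat.mul_le_mul g2 hZ
  have hfib : ∀ κ : ℤ, (((Tg.filter (fun D => k D = κ)).card : ℕ) : ℝ) ≤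
      CL ^ 2 * CG ^ 2 * CC * W ^ 5 := by
    intro κ
    rcases (Tg.filter (fun D => k D = κ)).eq_empty_or_nonempty with h0 | ⟨D₀, hD₀⟩
    · rw [h0]
      simp only [Finset.card_empty, Nat.cast_zero]
      positivity
    have hD₀g := (Finset.mem_filter.1 hD₀).1
    have hD₀k := (Finset.mem_filter.1 hD₀).2
    have hκpos : 0 < κ.natAbs := hD₀k ▸ hkpos D₀ hD₀g
    have hκcop : κ.natAbs.Coprime L := hD₀k ▸ hkcop D₀ hD₀g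
    have hκ₁ : ¬ (q₁ : ℤ) ∣ κ := hD₀k ▸ (hgk D₀ hD₀g).1
    have hκ₂ : ¬ (q₂ : ℤ) ∣ κ := hD₀k ▸ (hgk D₀ hD₀g).2
    have hκle : κ.natAbs ≤ 5 * (4 * Z) ^ l := by
      have h6 := (hsz D₀ (hgT D₀ hD₀g)).2.2
      rw [hD₀k] at h6
      have h7 : ((κ.natAbs : ℕ) : ℤ) ≤ ((5 * (4 * Z) ^ l : ℕ) : ℤ) := by
        rw [Int.natCast_natAbs]; exact h6
      exact_mod_cast h7
    have hκE : κ.natAbs ≤ Z ^ E :=
      hκle.trans (hk5.trans (Nat.pow_le_pow_right hZ1 (by omega)))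
    have hκ2E : κ.natAbs ^ 2 ≤ Z ^ E := by
      calc κ.natAbs ^ 2 ≤ (Z ^ (2 * l + 1)) ^ 2 := Nat.pow_le_pow_left (hκle.trans hk5) 2
        _ = Z ^ ((2 * l + 1) * 2) := by rw [pow_mul]
        _ ≤ Z ^ E := Nat.pow_le_pow_right hZ1 (by omega)
    obtain ⟨s1, s2, _⟩ := hS κ.natAbs hκpos hκcop
    obtain ⟨r1, r2, _⟩ := hS (κ.natAbs ^ 2) (pow_pos hκpos 2) (Nat.Coprime.pow_left 2 hκcop)
    let lab : ℤ → (ℕ × ℕ × ℕ) × (ℕ × ℕ × ℕ) × ℤ × ℤ := fun D => (m₁ D, m₂ D, fa D, fe D)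
    let Λ : Finset ((ℕ × ℕ × ℕ) × (ℕ × ℕ × ℕ) × ℤ × ℤ) :=
      S κ.natAbs ×ˢ (S (κ.natAbs ^ 2) ×ˢ (Finset.Icc (-Lg) Lg ×ˢ Finset.Icc (-Lg) Lg))
    have hmaps : ∀ D ∈ Tg.filter (fun D => k D = κ), lab D ∈ Λ := by
      intro D hD
      obtain ⟨hDg, hDk⟩ := Finset.mem_filter.1 hD
      have h6 := (hm₁ D hDg).1
      have h7 := (hm₂ D hDg).1
      rw [hDk] at h6 h7
      exact Finset.mem_product.2 ⟨h6, Finset.mem_product.2 ⟨h7,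
        Finset.mem_product.2 ⟨hfa D hDg, hfe D hDg⟩⟩⟩
    have hinner : ∀ t ∈ Λ, ((((Tg.filter (fun D => k D = κ)).filter
        (fun D => lab D = t)).card : ℕ) : ℝ) ≤ CC * W := by
      rintro ⟨t₁, t₂, a, e⟩ ht
      obtain ⟨ht₁, ht'⟩ := Finset.mem_product.1 ht
      obtain ⟨ht₂, _⟩ := Finset.mem_product.1 ht'
      have hres := hcc (Z ^ (4 * p)) X q₁ q₂ (Nat.one_le_pow _ _ (by omega)) hX hPar hX2
        g3 (g4.trans (Nat.pow_le_pow_right hZ1 (by omega))) κ hκ₁ hκ₂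
        ((Tg.filter (fun D => k D = κ)).filter (fun D => lab D = (t₁, t₂, a, e))) w x P
        (fun D hD => by
          obtain ⟨hD', _⟩ := Finset.mem_filter.1 hD
          obtain ⟨hDg, hDk⟩ := Finset.mem_filter.1 hD'
          have h6 := hsz D (hgT D hDg)
          have h7 := hTw D (hgT D hDg)
          rw [hDk] at h7
          exact ⟨h7, (hT D (hgT D hDg)).2.1, (hT D (hgT D hDg)).2.2.1, h6.1, h6.2.1⟩)
        (fun Q hQ => by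
          refine hvan Z X q₁ q₂ hZ hX hKX' hPar hZ₁ hZ₁' hZ₂ hZ₂' κ a e t₁ t₂ hκ₁ hκ₂
            (s2 t₁ ht₁) (r2 t₂ ht₂) Q (fun i => w (Q i)) (fun i => x (Q i))
            (fun i => P (Q i)) fun i => ?_
          obtain ⟨hD', hlabD⟩ := Finset.mem_filter.1 (hQ i)
          obtain ⟨hDg, hDk⟩ := Finset.mem_filter.1 hD'
          have h7 := hTw (Q i) (hgT (Q i) hDg)
          rw [hDk] at h7
          have e1 : m₁ (Q i) = t₁ := congrArg (fun s => s.1) hlabD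
          have e2 : m₂ (Q i) = t₂ := congrArg (fun s => s.2.1) hlabD
          have e3 : fa (Q i) = a := congrArg (fun s => s.2.2.1) hlabD
          have e4 : fe (Q i) = e := congrArg (fun s => s.2.2.2) hlabD
          refine ⟨h7, (hT _ (hgT _ hDg)).2.1, (hT _ (hgT _ hDg)).2.2.1, ?_, ?_, e3, e4⟩
          · rw [← e1]; exact (hm₁ (Q i) hDg).2
          · rw [← e2]; exact (hm₂ (Q i) hDg).2)
      refine hres.trans ?_
      refine mul_le_mul_of_nonneg_left ?_ (by linarith)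
      exact hmono _ (Nat.pow_le_pow_right hZ1 (by omega))
    have hres := CN2_fib (Tg.filter (fun D => k D = κ)) Λ lab hmaps (CC * W) hinner
    refine hres.trans ?_
    have hΛ : (Λ.card : ℝ) ≤ (CL * W) * ((CL * W) * ((CG * W) * (CG * W))) := by
      have hc1 : (((Finset.Icc (-Lg) Lg).card : ℕ) : ℝ) ≤ CG * W := by
        have h6 : (Finset.Icc (-Lg) Lg).card = 2 * (Nat.log 2 (Z ^ E) + 1) + 1 := by
          rw [Int.card_Icc, hLg]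
          push_cast
          omega
        rw [h6]
        exact hlog (Z ^ E) hZE1
      have hc2 : ((S κ.natAbs).card : ℝ) ≤ CL * W :=
        s1.trans (mul_le_mul_of_nonneg_left (hmono _ hκE) (by linarith))
      have hc3 : ((S (κ.natAbs ^ 2)).card : ℝ) ≤ CL * W :=
        r1.trans (mul_le_mul_of_nonneg_left (hmono _ hκ2E) (by linarith))
      rw [Finset.card_product, Finset.card_product, Finset.card_product]
      push_cast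
      gcongr
    calc (Λ.card : ℝ) * (CC * W) ≤ ((CL * W) * ((CL * W) * ((CG * W) * (CG * W)))) * (CC * W) :=
          mul_le_mul_of_nonneg_right hΛ (by positivity)
      _ = CL ^ 2 * CG ^ 2 * CC * W ^ 5 := by ring
  have hB : ∀ D ∈ Tg, k D ∈ Finset.Icc (-((5 * (4 * Z) ^ l : ℕ) : ℤ)) ((5 * (4 * Z) ^ l : ℕ) : ℤ) := by
    intro D hD
    rw [Finset.mem_Icc]
    exact abs_le.1 (hsz D (hgT D hD)).2.2
  have hgood := CN2_fib Tg _ k hB (CL ^ 2 * CG ^ 2 * CC * W ^ 5) (fun κ _ => hfib κ)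
  have hcardI : (((Finset.Icc (-((5 * (4 * Z) ^ l : ℕ) : ℤ)) ((5 * (4 * Z) ^ l : ℕ) : ℤ)).card : ℕ) : ℝ) ≤
      11 * 4 ^ l * (Z : ℝ) ^ l := by
    have h6 : (Finset.Icc (-((5 * (4 * Z) ^ l : ℕ) : ℤ)) ((5 * (4 * Z) ^ l : ℕ) : ℤ)).card =
        10 * (4 * Z) ^ l + 1 := by
      rw [Int.card_Icc]
      push_cast
      have : (0 : ℤ) ≤ (4 * (Z : ℤ)) ^ l := by positivity
      zify
      rw [Int.toNat_of_nonneg (by linarith)]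
      ring
    rw [h6]
    have h7 : 1 ≤ (4 * Z) ^ l := Nat.one_le_pow _ _ (by omega)
    have h8 : (1 : ℝ) ≤ (4 * (Z : ℝ)) ^ l := by exact_mod_cast h7
    push_cast
    rw [mul_pow] at h8 ⊢
    linarith
  have hW5 : W ^ 5 = (Z : ℝ) ^ ε := by
    rw [hW]
    push_cast
    rw [← Real.rpow_natCast (Z : ℝ) E, ← Real.rpow_mul (by linarith), ← Real.rpow_natCast,
      ← Real.rpow_mul (by linarith)]
    congr 1
    rw [hδdef]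
    push_cast
    field_simp
  have h1l : 1 + (l - 1) = l := by omega
  rw [h1l, hcard]
  push_cast
  rw [hW5] at hgood
  have hZε : 0 ≤ (Z : ℝ) ^ ε := by positivity
  calc (Tb.card : ℝ) + Tg.card ≤ CE * (Z : ℝ) ^ l * (Z : ℝ) ^ ε +
        (11 * 4 ^ l * (Z : ℝ) ^ l) * (CL ^ 2 * CG ^ 2 * CC * (Z : ℝ) ^ ε) := by
        refine add_le_add hbad (hgood.trans ?_)
        exact mul_le_mul_of_nonneg_right hcardI (by positivity)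
    _ = (CE + 11 * 4 ^ l * (CL ^ 2 * CG ^ 2 * CC)) * (Z : ℝ) ^ l * (Z : ℝ) ^ ε := by ring

end Pool.Agent.helper27.TD
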