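import Pool.Agent.helper27.TD.Spec2
import Pool.Agent.helper27.TD.CN2
import Pool.Agent.helper10.TD.TW2
import Pool.Agent.helper11.TD.VQ
import Pool.Agent.helper18.TD.PA
import Pool.Agent.helper18.TD.PV2
import Pool.Agent.helper21.TD.DTD
import Pool.Agent.helper21.TD.DTU
import Pool.Agent.helper21.TD.FSQ
import Pool.Agent.helper21.TD.PRE
import Pool.Agent.helper3.TD.GN2
import Pool.Agent.helper3.TD.THF
import Pool.Agent.helper34.TD.SPC
import Pool.Agent.helper36.TD.KER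
import Pool.Agent.helper36.TD.RES
import Pool.Agent.helper38.TD.WFX
import Pool.Agent.helper39.TD.MC2
import Pool.Agent.helper44.TD.NUMG
import Pool.Agent.helper49.TD.CC2
import Pool.Agent.helper74.TD.EX2
import Pool.Agent.helper77.TD.CRV
import Pool.Agent.helper79.TD.KD
import Pool.Agent.helper79.TD.LAT
import Pool.Agent.helper8.TD.ZQ
import Pool.Agent.helper88.TD.UB
import Pool.Agent.helper89.TD.FIN
import Pool.Agent.helper9.TD.VAN2

set_option autoImplicit false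

/-!
# MP_16912e_nt: the theorem, from all the rows
-/

namespace Pool.Agent.helper27.TD

open Finset Pool.Agent.helper47.RA

theorem all_CC2 : CC2_stmt := CC2 (CRV KER) (GN2 WFX) (MC2 RES THF PA PV2 FSQ) FSQ

theorem all_EX2 : EX2_stmt := EX2 LAT VQ SPC FSQ

/-- the count for one pair of primes -/
theorem all_count (p M : ℕ) (hp : p.Prime) (h7 : 7 ≤ p)
    (hM : M ^ 3 ≤ 4 * p ^ 2) (hM' : 4 * p ^ 2 < (M + 1) ^ 3) :
    5 ≤ M ∧ 2 * M ≤ p + 3 ∧ CountB p (M - 2) := by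
  have hodd : Odd p := hp.odd_of_ne_two (by omega)
  obtain ⟨b, l₁, l₂, j₁, j₂, ρ₁, ρ₂, hb, hbp, o1, o2, e1, e2, hM5, hMp, hnum⟩ :=
    NUMG p M hodd h7 hM hM'
  refine ⟨hM5, hMp, ?_⟩
  have hc := CN2 (TW2 PRE) LAT (VAN2 (UB DTU) (KD DTD) ZQ) all_CC2 all_EX2 b p l₁ l₂ j₁ j₂ (M - 1)
    ρ₁ ρ₂ hb hp hbp o1 o2 e1 e2 hnum (by omega) (by omega)
  have e : M - 1 - 1 = M - 2 := by omega
  rwa [e] at hc

open Classical in
/-- **The theorem**, `M = ⌊(4 p²)^(1/3)⌋`. -/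
theorem all_main (p M : ℕ) (hp : p.Prime) (h7 : 7 ≤ p) (hM : M ^ 3 ≤ 4 * p ^ 2)
    (hM' : 4 * p ^ 2 < (M + 1) ^ 3) (ε : ℝ) (hε : 0 < ε) :
    ∃ C : ℝ, ∀ f : ℤ → ℕ, TorsF p f → ∀ N : ℕ,
    (∑ D ∈ (Finset.Ioo (0 : ℤ) (N : ℤ)).filter IsFund, (f D : ℝ) ≤
      C * (N : ℝ) ^ (3 / 2 - 1 / (M : ℝ) + ε)) ∧
    (∑ D ∈ (Finset.Ioo (-(N : ℤ)) (0 : ℤ)).filter IsFund, (f D : ℝ) ≤
      C * (N : ℝ) ^ (3 / 2 - 1 / (M : ℝ) + ε)) := by
  obtain ⟨h5, h2, hc⟩ := all_count p M hp h7 hM hM'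
  have hodd : Odd p := hp.odd_of_ne_two (by omega)
  have h := Pool.Agent.helper89.TD.FIN p (M - 2) hodd (by omega) (by omega) hc ε hε
  have e : 2 + ((M - 2 : ℕ) : ℝ) = M := by
    rw [Nat.cast_sub (by omega)]
    push_cast
    ring
  rw [e] at h
  exact h

end Pool.Agent.helper27.TD
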