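import Pool.Agent.helper27.TD.All

set_option autoImplicit false

/-!
# MP_16912e_nt: the theorem with the exponent written out
-/

namespace Pool.Agent.helper27.TD

open Finset Pool.Agent.helper47.RA

open Classical in
/-- the theorem with `M = ⌊(4 p²)^(1/3)⌋` -/
theorem all_floor (p : ℕ) (hp : p.Prime) (h7 : 7 ≤ p) (ε : ℝ)
    (hε : 0 < ε) : ∃ C : ℝ, ∀ f : ℤ → ℕ, TorsF p f → ∀ N : ℕ,
    (∑ D ∈ (Finset.Ioo (0 : ℤ) (N : ℤ)).filter IsFund, (f D : ℝ) ≤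
      C * (N : ℝ) ^ (3 / 2 - 1 / (⌊(4 * (p : ℝ) ^ 2) ^ (1 / 3 : ℝ)⌋₊ : ℝ) + ε)) ∧
    (∑ D ∈ (Finset.Ioo (-(N : ℤ)) (0 : ℤ)).filter IsFund, (f D : ℝ) ≤
      C * (N : ℝ) ^ (3 / 2 - 1 / (⌊(4 * (p : ℝ) ^ 2) ^ (1 / 3 : ℝ)⌋₊ : ℝ) + ε)) := by
  have h0 : (0 : ℝ) ≤ 4 * (p : ℝ) ^ 2 := by positivity
  have h1 : (0 : ℝ) ≤ (4 * (p : ℝ) ^ 2) ^ (1 / 3 : ℝ) := by positivity
  have h3 : ((4 * (p : ℝ) ^ 2) ^ (1 / 3 : ℝ)) ^ 3 = 4 * (p : ℝ) ^ 2 := by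
    rw [← Real.rpow_natCast, ← Real.rpow_mul h0]
    norm_num
  refine all_main p _ hp h7 ?_ ?_ ε hε
  · have h := pow_le_pow_left₀ (Nat.cast_nonneg' _) (Nat.floor_le h1) 3
    rw [h3] at h
    exact_mod_cast h
  · have h := pow_lt_pow_left₀ (Nat.lt_floor_add_one ((4 * (p : ℝ) ^ 2) ^ (1 / 3 : ℝ))) h1
      (show (3 : ℕ) ≠ 0 by norm_num)
    rw [h3] at h
    exact_mod_cast h

end Pool.Agent.helper27.TD
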