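import Pool.Agent.helper47.RA.Main

set_option autoImplicit false

/-!
# MP_16912e_nt: p-torsion on average, a z-adic determinant method (prefix td)

THEOREM (MAIN_stmt).  For every prime p >= 7, both signs,
  sum over fundamental |D| < N of #Cl(Q(sqrt D))[p]  <=  C N ^ (3/2 - max (2/(p+3)) (3/(p+14)) + eps).

Notation everywhere: p = 2 d + 1, z = q1 q2 with q1, q2 distinct primes in (Z, 4 Z],
X < |D| <= 2 X, a point is P = (g, n, u, v) (P 0 = g, P 1 = n, P 2 = u, P 3 = v).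
File of a row: Pool/Agent/<seat>/TD/XX.lean, import Pool.Agent.helper27.TD.Spec,
namespace Pool.Agent.<seat>.TD, auxiliary lemmas prefixed by the row name.
No convert, no congr!, no native_decide.
-/

namespace Pool.Agent.helper27.TD

open Finset Polynomial Pool.Agent.helper47.RA

/-! ## Definitions -/

/-- index set of the monomials of bidegree `(1, b)` (also used to number the points) -/
abbrev Ix (b : ℕ) : Type := Fin 2 × Fin (b + 1)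

/-- the monomials `g^(1-i) n^i u^(b-l) v^l` -/
def mon {R : Type} [CommRing R] (b : ℕ) (g n u v : R) (c : Ix b) : R :=
  g ^ (1 - (c.1 : ℕ)) * n ^ (c.1 : ℕ) * (u ^ (b - (c.2 : ℕ)) * v ^ (c.2 : ℕ))

/-- a point `(g, n, u, v)` -/
abbrev Pt : Type := Fin 4 → ℤ

/-- the matrix of the monomials at `2 b + 2` points -/
def mat (b : ℕ) (P : Ix b → Pt) : Matrix (Ix b) (Ix b) ℤ :=
  Matrix.of fun i c => mon b (P i 0) (P i 1) (P i 2) (P i 3) c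

/-- the binary form of degree `f` with coefficients those of `F`: `∑ F_i x^i y^(f-i)` -/
def hev {R : Type} [CommRing R] (f : ℕ) (F : ℤ[X]) (x y : R) : R :=
  ∑ i ∈ range (f + 1), ((F.coeff i : ℤ) : R) * x ^ i * y ^ (f - i)

/-- the solutions given by two prime ideals `𝔮₁, 𝔮₂` with `(𝔮₁ / 𝔮₂)^p` principal -/
def Solu (A : ℕ) (D : ℤ) : Prop :=
  ∃ x w : ℤ, w ≠ 0 ∧ x ^ 2 = D * w ^ 2 + 4 * (A : ℤ) ∧ |D| * w ^ 2 ≤ 4 * (A : ℤ) ∧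
    ∀ h : ℕ, (h : ℤ) ^ 2 ∣ w ^ 2 → (h : ℤ) ∣ 2 * x → h ≤ 4

/-- the integers attached to a solution -/
structure Tow (q₁ q₂ d : ℕ) (D k w x : ℤ) (P : Pt) : Prop where
  fund : IsFund D
  sol : x ^ 2 = D * w ^ 2 + 4 * ((q₁ : ℤ) * q₂) ^ (2 * d + 1)
  prim : ∀ h : ℕ, (h : ℤ) ^ 2 ∣ w ^ 2 → (h : ℤ) ∣ 2 * x → h ≤ 4
  hN : P 2 ^ 2 - (q₁ : ℤ) * q₂ * P 3 ^ 2 = D * k ^ 2
  hW : P 0 ^ 2 - (q₁ : ℤ) * q₂ * P 1 ^ 2 = -(k * w)
  hE : P 3 * (P 0 ^ 2 + (q₁ : ℤ) * q₂ * P 1 ^ 2) - 2 * P 2 * P 0 * P 1 =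
    2 * ((q₁ : ℤ) * q₂) ^ d * k ^ 2
  v0 : P 3 ≠ 0
  k0 : k ≠ 0
  w0 : w ≠ 0
  hD₁ : ¬ (q₁ : ℤ) ∣ D
  hD₂ : ¬ (q₂ : ℤ) ∣ D
  hw₁ : ¬ (q₁ : ℤ) ∣ w
  hw₂ : ¬ (q₂ : ℤ) ∣ w
  bk : k ^ 2 ≤ 25 * ((q₁ : ℤ) * q₂)
  bu : P 2 ^ 2 ≤ 25 * ((q₁ : ℤ) * q₂) * |D|
  bv : P 3 ^ 2 ≤ 4 * |D|
  bw : |D| * w ^ 2 ≤ 4 * ((q₁ : ℤ) * q₂) ^ (2 * d + 1)
  bn : P 1 ^ 2 ≤ 2 * ((q₁ : ℤ) * q₂) ^ d
  bg : P 0 ^ 2 ≤ 12 * ((q₁ : ℤ) * q₂) ^ (d + 1)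

/-- `(x, y)` lies in the lattice with label `(h, m, ζ)`: `x = h (m x₁ + ζ y₁)`, `y = h y₁` -/
def InLab (l : ℕ × ℕ × ℕ) (x y : ℤ) : Prop :=
  ∃ x₁ y₁ : ℤ, x = l.1 * (l.2.1 * x₁ + l.2.2 * y₁) ∧ y = l.1 * y₁

/-- exponents `(m, i)` of the expansion monomials `E^m t^i` -/
def mons (b : ℕ) : Finset (ℕ × ℕ) :=
  (range (b + 1) ×ˢ range (2 * b + 2)).filter (fun s => 2 * s.1 + s.2 ≤ 2 * b + 1)

/-- lower bound for the sum of the `2 b + 2` smallest weights `d m + j i`, threshold `T` -/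
def sig (b d j T : ℕ) : ℕ := 2 * (b + 1) * T - ∑ s ∈ mons b, (T - (d * s.1 + j * s.2))

/-- the numerical condition of the determinant method -/
def Num (b d j₁ j₂ T₁ T₂ : ℕ) : Prop :=
  2 * (2 * d + 1) * (b + 1) + (2 + j₁ + j₂) * ((b + 1) * (2 * b - 1)) ≤
    2 * (sig b d j₁ T₁ + sig b d j₂ T₂) + 2 * (b + 1) ^ 2

/-- the Thue form of the curve `(g : n) = (A : B)(u/v)`, as a polynomial in `u/v`
(formal degree `2 b + 1`) -/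
noncomputable def phi (A B : ℤ[X]) (z : ℤ) : ℤ[X] := A ^ 2 + C z * B ^ 2 - 2 * X * A * B

/-- value of an integer polynomial at a rational number -/
noncomputable def ev (A : ℤ[X]) (τ : ℚ) : ℚ := (A.map (Int.castRingHom ℚ)).eval τ

/-- `A, B` describe a curve of bidegree `(1, b)` -/
structure Curve (b : ℕ) (A B : ℤ[X]) : Prop where
  dA : A.natDegree ≤ b
  dB : B.natDegree ≤ b
  dAB : A.natDegree = b ∨ B.natDegree = b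
  cop : IsCoprime (A.map (Int.castRingHom ℚ)) (B.map (Int.castRingHom ℚ))

/-- the point lies on the curve -/
def OnCurve (A B : ℤ[X]) (P : Pt) : Prop :=
  (P 0 : ℚ) * ev B ((P 2 : ℚ) / P 3) = (P 1 : ℚ) * ev A ((P 2 : ℚ) / P 3)

/-! ## Part A: from a solution to a tower -/

/-- ROW PRE (short-medium).  z = q1 q2, M = z^(2d+1) odd.
(1) q ∤ x for q = q1, q2 (q >= 5): if q | x then q | D w^2.  If q | w then h = q violates the last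
clause of Solu (q^2 | w^2, q | 2x, q > 4).  Otherwise q | D, q^2 ∤ D (IsFund, q odd), but
q^2 | x^2 - 4 z^(2d+1) = D w^2 (2d+1 >= 2), contradiction.  Hence q ∤ D w^2, i.e. q ∤ D, q ∤ w.
(2) w is invertible mod M: take s with x + w s = 0 mod M and s = D mod 2 (add M, odd, if necessary).
w^2 (s^2 - D) = x^2 - D w^2 = 4M = 0 mod M, so M | s^2 - D; 4 | s^2 - D since D = 0, 1 mod 4 and
s = D mod 2; so s^2 - D = 4 M δ.  x + w s is even: x^2 = D w^2 mod 4 gives x = D w = s w mod 2.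
So x = -(w s) + 2 M ξ. -/
def PRE_stmt : Prop := ∀ (q₁ q₂ d : ℕ) (D : ℤ), q₁.Prime → q₂.Prime → q₁ ≠ q₂ → 5 ≤ q₁ → 5 ≤ q₂ →
  1 ≤ d → IsFund D → Solu ((q₁ * q₂) ^ (2 * d + 1)) D →
  ∃ x w s ξ δ : ℤ, w ≠ 0 ∧ x ^ 2 = D * w ^ 2 + 4 * ((q₁ : ℤ) * q₂) ^ (2 * d + 1) ∧
    |D| * w ^ 2 ≤ 4 * ((q₁ : ℤ) * q₂) ^ (2 * d + 1) ∧
    (∀ h : ℕ, (h : ℤ) ^ 2 ∣ w ^ 2 → (h : ℤ) ∣ 2 * x → h ≤ 4) ∧
    x = -(w * s) + 2 * ((q₁ : ℤ) * q₂) ^ (2 * d + 1) * ξ ∧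
    D = s ^ 2 - 4 * ((q₁ : ℤ) * q₂) ^ (2 * d + 1) * δ ∧
    ¬ (q₁ : ℤ) ∣ D ∧ ¬ (q₂ : ℤ) ∣ D ∧ ¬ (q₁ : ℤ) ∣ w ∧ ¬ (q₂ : ℤ) ∣ w

/-- ROW TOW (medium).  theorem TOW (h : PRE_stmt) : TOW_stmt.  z = q1 q2.
Substituting in x^2 = D w^2 + 4 z^p:  (R)  δ w^2 - w s ξ + z^(2d+1) ξ^2 = 1.
Dirichlet (Real.exists_int_int_abs_mul_sub_le with s/(2 z^d), N = floor B, B^2 = 2 z^d / sqrt|D| >= 1
by the hypothesis on |D|): n, μ with 1 <= n <= N and |x_β| <= 2 z^d/(N+1), x_β := -s n + 2 z^d μ.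
So n^2 <= 2 z^d/sqrt|D|, x_β^2 <= 2 z^d sqrt|D|.  Put
  v = 2 (z^(d+1) δ n^2 - s μ n + z^d μ^2)          [2 z^d v = x_β^2 - D n^2]
  g = μ w - z^(d+1) ξ n                             [2 z^d g = w x_β - x n]
  k = - z ξ s n^2 + 2 z^(d+1) ξ μ n + z δ w n^2 - μ^2 w
                                                    [4 z^(2d) k = 2 x x_β n - w (x_β^2 + D n^2)]
  u = - w s μ^2 + z ξ s^2 n^2 - 2 z^(d+1) ξ s μ n + 2 z^(2d+1) ξ μ^2 - z δ w s n^2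
      + 4 z^(d+1) δ w μ n - 2 z^(2d+2) ξ δ n^2
                                                    [4 z^(2d) u = x (x_β^2 + D n^2) - 2 D w x_β n]
hN, hW, hE are linear combinations of (R) (e.g. g^2 + k w - z n^2 = z n^2 ((R) - 1); check the others
after multiplying by 4 z^(2d) etc. with the bracketed forms and x^2 = D w^2 + 4 z^p; all identities
have been checked numerically).
v ≠ 0: x_β^2 = D n^2 is impossible (IsFund.not_sq, n ≠ 0).  k ≠ 0: k = 0 gives u^2 = z v^2, v ≠ 0,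
impossible since z = q1 q2 is not a square (helper47 RQ.not_sq_of_odd with p = 1, or Nat.Prime
irrational argument).
Bounds (real numbers, S = sqrt|D|): x^2 <= 8 z^p, |w| S <= 2 z^(p/2), |x_β^2 ± D n^2| <= 4 z^d S,
|x_β| n S <= 2 z^d S:  |u| <= (2 sqrt 2 + 2) sqrt z S (so u^2 <= 25 z |D|), |k| S the same bound
(so k^2 <= 25 z), |v| <= 2 S, g^2 <= 12 z^(d+1), n^2 <= 2 z^d. -/
def TOW_stmt : Prop := ∀ (q₁ q₂ d : ℕ) (D : ℤ), q₁.Prime → q₂.Prime → q₁ ≠ q₂ → 5 ≤ q₁ → 5 ≤ q₂ →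
  1 ≤ d → IsFund D → |D| ≤ 4 * ((q₁ : ℤ) * q₂) ^ (2 * d) → Solu ((q₁ * q₂) ^ (2 * d + 1)) D →
  ∃ (k w x : ℤ) (P : Pt), Tow q₁ q₂ d D k w x P

/-! ## Part B: lattice labels -/

/-- ROW LAT (short-medium).  For (x, y) put h = gcd(x, y, m), m' = m / gcd(m, h^2), x = h x',
y = h y'.  m | h^2 (x'^2 - z y'^2) gives m' | x'^2 - z y'^2; m' | m/h (gcd(m,h^2) is a multiple of h)
and gcd(x', y', m/h) = 1, so gcd(y', m') = 1 (a prime r | m', r | y' divides x'^2, x').  Take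
ζ in [0, m') with ζ y' = x' mod m', then m' | ζ^2 - z; label (h, m', ζ); m | h^2 m'.
S = all (h, m', ζ) with h | m, m' = m / gcd(m, h^2), ζ < m', m' | ζ^2 - z.  For each h the number of
ζ is <= 3 tau(m') by helper47's card_roots_le (M = m', H = 2: h^2 | m', h | 2 ζ, gcd(ζ, m') = 1
since gcd(z, m') = 1, so h | 2; interval length m').  So card S <= 3 tau(m)^2 <= C m^eps. -/
def LAT_stmt : Prop := ∀ ε : ℝ, 0 < ε → ∃ C : ℝ, 1 ≤ C ∧ ∀ m z : ℕ, 0 < m → m.Coprime z →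
  ∃ S : Finset (ℕ × ℕ × ℕ), (S.card : ℝ) ≤ C * (m : ℝ) ^ ε ∧ (∀ l ∈ S, m ∣ l.1 ^ 2 * l.2.1) ∧
    ∀ x y : ℤ, (m : ℤ) ∣ x ^ 2 - z * y ^ 2 → ∃ l ∈ S, InLab l x y

/-! ## Part C: the determinant -/

/-- ROW DTD (short).  det (A * B) = ∑ over f : ι → S of (∏ i, A i (f i)) * det (fun i j => B (f i) j)
(multilinearity of det in the rows; e.g. Matrix.det_apply, Finset.prod_univ_sum, sum_comm, as in the
proof of Matrix.det_mul); for f not injective two rows are equal (Matrix.det_zero_of_row_eq); for f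
injective ∏ w (f i) divides det (fun i j => B (f i) j) (row i is a multiple of w (f i),
Matrix.det_mul_column / det_smul row by row). -/
def DTD_stmt : Prop := ∀ (ι S : Type) [Fintype ι] [DecidableEq ι] [Fintype S] [DecidableEq S]
  (A : Matrix ι S ℤ) (B : Matrix S ι ℤ) (w : S → ℤ) (N : ℤ), (∀ s i, w s ∣ B s i) →
  (∀ f : ι → S, Function.Injective f → N ∣ ∏ i, w (f i)) → N ∣ (A * B).det

/-- ROW DTU (short).  Same expansion with absolute values, S = ι: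
|det (A * B)| = |det A| |det B|, |det A| <= ∑ over permutations ∏ a (σ i) = r! ∏ a s,
|det B| <= r! K^r (Matrix.det_le). -/
def DTU_stmt : Prop := ∀ (ι : Type) [Fintype ι] [DecidableEq ι]
  (A B : Matrix ι ι ℝ) (a : ι → ℝ) (K : ℝ), (∀ i s, |A i s| ≤ a s) → (∀ s i, |B s i| ≤ K) →
  |(A * B).det| ≤ ((Fintype.card ι).factorial : ℝ) ^ 2 * K ^ (Fintype.card ι) * ∏ s, a s

/-- ROW UB (medium).  theorem UB (h : DTU_stmt) : UB_stmt.  Put η± = g ± √z n, δ± = u ± √z v.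
g = (η+ + η-)/2, √z n = (η+ - η-)/2, u = (δ+ + δ-)/2, √z v = (δ+ - δ-)/2, so
g^(1-i) (√z n)^i u^(b-l) (√z v)^l = ∑ over (i', l') of c * η+^(1-i') η-^(i') δ+^(b-l') δ-^(l') with
|c| <= K(b) constants independent of the point (binomial theorem: add_pow, sub pow; K = 2^b is fine;
write ((a+b)/2)^(b-l) ((a-b)/2)^l as an integer combination divided by 2^b, e.g. by induction or with
Polynomial coefficients).  So the matrix with columns scaled by √z^(i+l) is A * B, with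
|A_(P,(i',l'))| <= (2A)^(1-i') (K₁/A)^i' (2B)^(b-l') (K₂/B)^l' =: a (i',l')
(|η-| = |g^2 - z n^2| / |η+| <= K₁/A).  ∏ a = (2 K₁)^(b+1) (2 K₂)^(b(b+1)); the scaling of the
columns multiplies det by ∏ √z^(i+l) = √z^((b+1)^2). -/
def UB_stmt : Prop := ∀ b : ℕ, ∃ C : ℝ, 1 ≤ C ∧ ∀ (z A B K₁ K₂ : ℝ), 0 < z → 0 < A → 0 < B →
  0 ≤ K₁ → 0 ≤ K₂ → ∀ P : Ix b → Pt,
  (∀ i, (A ≤ |(P i 0 : ℝ) + √z * P i 1| ∧ |(P i 0 : ℝ) + √z * P i 1| ≤ 2 * A ∧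
      |(P i 0 : ℝ) ^ 2 - z * (P i 1 : ℝ) ^ 2| ≤ K₁) ∧
    (B ≤ |(P i 2 : ℝ) + √z * P i 3| ∧ |(P i 2 : ℝ) + √z * P i 3| ≤ 2 * B ∧
      |(P i 2 : ℝ) ^ 2 - z * (P i 3 : ℝ) ^ 2| ≤ K₂)) →
  |((mat b P).det : ℝ)| * √z ^ ((b + 1) ^ 2) ≤ C * K₁ ^ (b + 1) * K₂ ^ (b * (b + 1))

/-- ROW KD (medium).  theorem KD (h : DTD_stmt) : KD_stmt.
(g, n) = (h1 (m1 x + ζ1 y), h1 y), (u, v) = (h2 (m2 x' + ζ2 y'), h2 y').  Binomial theorem: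
g^(1-i) n^i = h1 ∑_(i') (coefficient divisible by m1^i') x^i' y^(1-i'),
u^(b-l) v^l = h2^b ∑_(l') (coefficient divisible by m2^l') x'^l' y'^(b-l').
So mat = A * B with S = Ix b, w (i', l') = h1 m1^i' h2^b m2^l'; an injective f : Ix b → Ix b is a
bijection and ∏ w = (h1^2 m1)^(b+1) (h2^2 m2)^(b(b+1)), divisible by K^(b+1) (K^2)^(b(b+1)). -/
def KD_stmt : Prop := ∀ (b K : ℕ) (l₁ l₂ : ℕ × ℕ × ℕ), K ∣ l₁.1 ^ 2 * l₁.2.1 →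
  K ^ 2 ∣ l₂.1 ^ 2 * l₂.2.1 → ∀ P : Ix b → Pt,
  (∀ i, InLab l₁ (P i 0) (P i 1) ∧ InLab l₂ (P i 2) (P i 3)) →
  (K : ℤ) ^ ((b + 1) * (2 * b + 1)) ∣ (mat b P).det

/-- ROW WT (short).  Purely combinatorial: for an injective f from an index set of 2b+2 elements into
mons b,  sig b d j T <= ∑ (d m(f i) + j i(f i)).
(2b+2) T <= ∑_i w(f i) + ∑_i (T - w(f i)) <= ∑_i w(f i) + ∑_(s in mons b) (T - w s)
(truncated subtraction; injectivity for the last step: Finset.sum_le_sum_of_subset after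
Finset.sum_image / sum_map). -/
def WT_stmt : Prop := ∀ (b d j T : ℕ) (f : Ix b → {s : ℕ × ℕ // s ∈ mons b}),
  Function.Injective f → sig b d j T ≤ ∑ i, (d * (f i).1.1 + j * (f i).1.2)

/-- ROW QD (long).  theorem QD (h : DTD_stmt) (h' : WT_stmt) : QD_stmt.
H_i = g_i^2 + z n_i^2 (prime to q, as q | z, q ∤ g_i), n_i = c g_i + q^j t_i, e = q^d e'.
H v = 2 u g n + e.  Multiply row i by H_i^b (det is multiplied by ∏ H_i^b, prime to q, so it is enough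
that q^sig divides the new determinant: IsCoprime, dvd_of_dvd_mul_left).  New entry:
H^b g^(1-i) n^i u^(b-l) v^l = H^(b-l) g^(1-i) n^i u^(b-l) (2ugn + e)^l
 = ∑_(m <= l) C(l,m) e^m u^(b-m) * [H^(b-l) g^(1-i) n^i (2gn)^(l-m)],
the bracket is a form of degree 2b+1-2m in (g, n) (coefficients depend only on z, b, i, l, m);
with n = c g + q^j t it is ∑_(i' <= 2b+1-2m) (integer) q^(j i') g^(2b+1-2m-i') t^i'.
So the new matrix is A * B, S = {s // s in mons b}, A_(P,(m,i')) = u^(b-m) g^(2b+1-2m-i') t^i' e'^m,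
B_((m,i'),(i,l)) divisible by w = q^(d m + j i').  Use DTD with N = q^sig and WT.
Hint for the expansion: work in ℤ[T] (polynomials in t): the polynomial
  Q_(i,l,m) = C(l,m) (1 + z (c + Y)^2)^(b-l) (c + Y)^i (2 (c + Y))^(l-m)  in ℤ[Y], natDegree <= 2b+1-2m,
and homogenize: g^(2b+1-2m) Q(q^j t / g) = ∑ Q.coeff i' (q^j t)^i' g^(2b+1-2m-i')
(prove the identity in ℚ, g ≠ 0). -/
def QD_stmt : Prop := ∀ (b d j T q : ℕ) (z e c : ℤ), q.Prime → (q : ℤ) ∣ z → (q : ℤ) ^ d ∣ e →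
  ∀ P : Ix b → Pt, (∀ i, ¬ (q : ℤ) ∣ P i 0 ∧ (q : ℤ) ^ j ∣ P i 1 - c * P i 0 ∧
    P i 3 * (P i 0 ^ 2 + z * P i 1 ^ 2) - 2 * P i 2 * P i 0 * P i 1 = e) →
  (q : ℤ) ^ (sig b d j T) ∣ (mat b P).det

/-- ROW VAN (medium-long).  theorem VAN (h1 : UB_stmt) (h2 : KD_stmt) (h3 : QD_stmt) : VAN_stmt.
z = q1 q2, W = 2 z^((2d+1)/2) / √X, |w| <= W (bw), |g^2 - z n^2| = |k| |w| <= |k| W,
|u^2 - z v^2| = |D| k^2 <= 2 X k^2.  q ∤ g: from hW and q ∤ k, q ∤ w, q | z.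
UB with A = 2^a, B = 2^e (Int.log: zpow bounds) gives
|det| √z^((b+1)^2) <= C (|k| W)^(b+1) (2 X k^2)^(b(b+1)).
KD (K = |k|), QD for q1 (j1, T1) and q2 (j2, T2), pairwise coprime (q ∤ k, q1 ≠ q2):
|k|^((b+1)(2b+1)) q1^(sig1) q2^(sig2) | det.  If det ≠ 0, cancel the power of k, square, use
q_i >= Z, z >= Z^2, z <= 16 Z^2:
Z^(2 sig1 + 2 sig2 + 2 (b+1)^2) <= C' Z^(2 (2d+1)(b+1)) X^((b+1)(2b-1)), contradiction with Num and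
K X <= Z^(2+j1+j2) if K > C' (exponent (b+1)(2b-1) >= 1). -/
def VAN_stmt : Prop := ∀ b d j₁ j₂ T₁ T₂ : ℕ, 1 ≤ b → 1 ≤ d → Num b d j₁ j₂ T₁ T₂ →
  ∃ K : ℕ, 1 ≤ K ∧ ∀ Z X q₁ q₂ : ℕ, 5 ≤ Z → 1 ≤ X → K * X ≤ Z ^ (2 + j₁ + j₂) →
  q₁.Prime → q₂.Prime → q₁ ≠ q₂ → Z < q₁ → q₁ ≤ 4 * Z → Z < q₂ → q₂ ≤ 4 * Z →
  ∀ (k c₁ c₂ a e : ℤ) (l₁ l₂ : ℕ × ℕ × ℕ), ¬ (q₁ : ℤ) ∣ k → ¬ (q₂ : ℤ) ∣ k →
  k.natAbs ∣ l₁.1 ^ 2 * l₁.2.1 → k.natAbs ^ 2 ∣ l₂.1 ^ 2 * l₂.2.1 →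
  ∀ (D w x : Ix b → ℤ) (P : Ix b → Pt),
  (∀ i, Tow q₁ q₂ d (D i) k (w i) (x i) (P i) ∧ (X : ℤ) < |D i| ∧ |D i| ≤ 2 * X ∧
    InLab l₁ (P i 0) (P i 1) ∧ InLab l₂ (P i 2) (P i 3) ∧
    (q₁ : ℤ) ^ j₁ ∣ P i 1 - c₁ * P i 0 ∧ (q₂ : ℤ) ^ j₂ ∣ P i 1 - c₂ * P i 0 ∧
    Int.log 2 |(P i 0 : ℝ) + √((q₁ : ℝ) * q₂) * P i 1| = a ∧
    Int.log 2 |(P i 2 : ℝ) + √((q₁ : ℝ) * q₂) * P i 3| = e) →
  (mat b P).det = 0

/-- ROW NUM1 (short).  b = 1: j1 = (d+1)/2, j2 = d/2, T_i = max (2 j_i) d; then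
sig 1 d j (max (2j) d) = 3 j + d for d <= 3 j, j <= d (mons 1 = {(0,0),(0,1),(0,2),(0,3),(1,0),(1,1)},
by decide / rfl; then omega), so sig1 + sig2 = 5 d and Num is an equality. -/
def NUM1_stmt : Prop := ∀ d : ℕ, 3 ≤ d → ∃ j₁ j₂ T₁ T₂ : ℕ, j₁ + j₂ = d ∧ Num 1 d j₁ j₂ T₁ T₂

/-- ROW NUM3 (short).  b = 3: J = (2d+10)/3 (floor; 3 J >= 2d+8; 3 (2+J) <= 2d+15 since 3 ∤ 2d+1),
j1 = (J+1)/2, j2 = J/2, d/3 <= j_i <= d/2, T_i = d + 2 j_i; then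
sig 3 d j (d+2j) = 13 j + 3 d (the weights 0,j,2j,3j,4j,d,d+j,d+2j are <= T, the others
5j,6j,7j,d+3j,d+4j,d+5j,2d,2d+j,... are >= T), sig1 + sig2 = 13 J + 6 d and Num says 3J >= 2d+8. -/
def NUM3_stmt : Prop := ∀ d : ℕ, 11 ≤ d → ¬ 3 ∣ 2 * d + 1 → ∃ j₁ j₂ T₁ T₂ : ℕ,
  3 * (2 + j₁ + j₂) ≤ 2 * d + 15 ∧ j₁ + j₂ + 2 ≤ 2 * d ∧ 1 ≤ j₁ + j₂ ∧ Num 3 d j₁ j₂ T₁ T₂

/-! ## Part D: the curve -/

/-- ROW KER (short-medium).  The ℚ-span of S has dimension < r = card ι (otherwise choose r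
independent vectors of S, det ≠ 0).  Choose linearly independent v_1, ..., v_m in S spanning the same
ℚ-subspace, m < r.  m = 0: S ⊆ {0}, c = any basis vector.  m > 0: Siegel's lemma
Int.Matrix.exists_ne_zero_int_vec_norm_le for the m x r matrix: c ≠ 0, c orthogonal to v_1..v_m, so to
all of S, norm <= (r H)^(m/(r-m)) <= (r H)^r. -/
def KER_stmt : Prop := ∀ (ι : Type) [Fintype ι] [DecidableEq ι] [Nonempty ι] (H : ℕ), 1 ≤ H →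
  ∀ S : Set (ι → ℤ), (∀ v ∈ S, ∀ i, |v i| ≤ H) →
  (∀ M : Matrix ι ι ℤ, (∀ i, M i ∈ S) → M.det = 0) →
  ∃ c : ι → ℤ, c ≠ 0 ∧ (∀ i, |c i| ≤ ((Fintype.card ι * H : ℕ) : ℤ) ^ Fintype.card ι) ∧
    ∀ v ∈ S, ∑ i, c i * v i = 0

/-- ROW CRV (medium-long).  theorem CRV (h : KER_stmt) : CRV_stmt.  Strong induction on b.
KER (entries <= H^(b+1)) gives c ≠ 0 with ∑ c_(i,l) g^(1-i) n^i u^(b-l) v^l = 0 on S.  With
C1 = ∑_l c_(0,l) X^(b-l), C2 = ∑_l c_(1,l) X^(b-l), τ = u/v (v ≠ 0): g C1(τ) + n C2(τ) = 0,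
(C1, C2) ≠ (0, 0).  G = gcd over ℚ[X].  If G is constant: A = -C2, B = C1 (coprime), R = ∅,
b' = max of the degrees.
Otherwise e = deg G >= 1, C_i = G c_i (over ℚ), deg c_i <= b - e.  R0 = roots of G, card <= e.
S' = points of S with τ not in R0: g c1(τ) + n c2(τ) = 0, (c1, c2) ≠ 0, a nontrivial linear relation
between the columns of mat (b-e), so all determinants of bidegree (1, b-e) vanish on S'
(Matrix.exists_mulVec_eq_zero_iff over ℚ).  Induction for S' and b - e: R', A, B; R = R0 ∪ R'.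
The constant C is the maximum over b' <= b of the constants. -/
def CRV_stmt : Prop := ∀ b : ℕ, ∃ C : ℕ, 1 ≤ C ∧ ∀ H : ℕ, 1 ≤ H → ∀ S : Set Pt,
  (∀ P ∈ S, (∀ i, |P i| ≤ H) ∧ P 3 ≠ 0) →
  (∀ Q : Ix b → Pt, (∀ i, Q i ∈ S) → (mat b Q).det = 0) →
  ∃ (R : Finset ℚ) (b' : ℕ) (A B : ℤ[X]), R.card ≤ b ∧ b' ≤ b ∧ Curve b' A B ∧
    (∀ i, |A.coeff i| ≤ C * (H : ℤ) ^ C ∧ |B.coeff i| ≤ C * (H : ℤ) ^ C) ∧
    ∀ P ∈ S, (P 2 : ℚ) / P 3 ∈ R ∨ OnCurve A B P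

/-- ROW RES (medium).  R = resultant A B b b (formal degrees b, b).  Mathlib
(Resultant/Basic.lean) sylveserMap_comp_adjSylvester: for every F of degree < 2b there are p, q of
degree < b with A p + B q = C R * F.  Take F = 1 and F = X^(2b-1) and homogenize (degree 2b-1):
R v^(2b-1) and R u^(2b-1) are integral combinations of hev b A u v and hev b B u v, so their gcd
divides R gcd(u^(2b-1), v^(2b-1)) = R.
(Homogenization: hev (f+f') (F F') u v = hev f F u v * hev f' F' u v; prove it for v ≠ 0 by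
hev f F u v = v^f F(u/v) in ℚ, and for v = 0 by the top coefficients, or coefficientwise.)
R ≠ 0: map to ℚ (resultant_map_map); if natDegree A = b: resultant A B b b =
(± lc A ^ (b - deg B)) * resultant A B (resultant_add_right_deg), and resultant_eq_zero_iff (coprime);
similarly with resultant_add_left_deg if natDegree B = b.  |R| <= (2b)! H^(2b) (Matrix.det_le). -/
def RES_stmt : Prop := ∀ b : ℕ, 1 ≤ b → ∃ C : ℕ, 1 ≤ C ∧ ∀ H : ℕ, 1 ≤ H → ∀ A B : ℤ[X],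
  Curve b A B → (∀ i, |A.coeff i| ≤ H ∧ |B.coeff i| ≤ H) →
  ∃ R : ℤ, R ≠ 0 ∧ |R| ≤ C * (H : ℤ) ^ C ∧ ∀ u v : ℤ, IsCoprime u v →
    (Int.gcd (hev b A u v) (hev b B u v) : ℤ) ∣ R

/-! ## Part E: Thue equations, elementary -/

/-- ROW LBL (medium), helper3.  Induction on n.  n = 0: hev 0 Φ is the constant Φ_0; if T is
nonempty m | Φ_0.  n >= 1: fix x1 = (a, b) in T, primitive, a b' - a' b = 1; z = s x1 + t (a', b'),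
t = w(x1, z).  Φ(z) = Φ(x1) s^n + t ψ(s, t), ψ a form of degree n - 1 with integer coefficients.
m | Φ(x1), so al = gcd(m, t), m/al | ψ(s,t).  For each al apply the induction to ψ, m/al and the
(s,t) with gcd(m,t) = al.  Same label: al | t(z), t(z'), m/al | ψ(. X + .) so m divides Φ as a form in
the pair. -/
def LBL_stmt : Prop := ∀ (n : ℕ) (Φ : ℤ[X]) (m : ℤ), m ≠ 0 → ∀ T : Finset (ℤ × ℤ),
  (∀ p ∈ T, IsCoprime p.1 p.2 ∧ m ∣ hev n Φ p.1 p.2) →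
  ∃ lab : ℤ × ℤ → (Fin n → ℕ), (∀ p ∈ T, ∀ i, lab p i ∣ m.natAbs) ∧
    ∀ p ∈ T, ∀ r ∈ T, lab p = lab r →
      (C m : ℤ[X]) ∣ hev n Φ (C p.1 * X + C r.1) (C p.2 * X + C r.2)

/-- ROW MON (short-medium), helper3.  G monic over ℤ, all complex roots pairwise at distance < 1.
Then all roots are equal.  Let x be a root, h = minpoly ℤ x (x is integral), h | G (over ℤ, monic).
deg h >= 2: h is separable, its roots in ℂ are distinct roots of G, discr h is a nonzero integer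
(resultant_deriv, resultant_eq_prod_eval, discr of a monic polynomial = ± ∏_(i≠j) (x_i - x_j)), but
|∏| < 1.  So every root is an integer, and two distinct integers are at distance >= 1. -/
def MON_stmt : Prop := ∀ G : ℤ[X], G.Monic →
  (∀ x y : ℂ, (G.map (Int.castRingHom ℂ)).IsRoot x → (G.map (Int.castRingHom ℂ)).IsRoot y →
    ‖x - y‖ < 1) →
  ∀ x y : ℂ, (G.map (Int.castRingHom ℂ)).IsRoot x → (G.map (Int.castRingHom ℂ)).IsRoot y → x = y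

/-- ROW THF (medium-long), helper3.  theorem THF (h1 : LBL_stmt) (h2 : MON_stmt) : THF_stmt.
Over ℂ: Φ_h(x,y) = a y^(n-r) ∏_(i <= r) (x - θ_i y), r = natDegree Φ, |θ_i| <= 2H, |a| >= 1.
Linear factors L_i in {y, x - θ_i y}, not all proportional (otherwise r = 0 or r = n with all θ_i
equal, rational, excluded).  For a solution P: |L_i(P)| <= 3 H^2 and |L_i(P)| >= |m| / (|a| ∏ others).
Label of P: LBL label (<= tau(m)^n), and for each i (floor(20 log|L_i(P)|), floor(20 arg L_i(P)))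
(<= (C log H)^n C^n).  Two solutions y, z with the same label: G(s) = Φ_h(s y + z)/m in ℤ[s] is monic
(Φ_h(y) = m) with roots -L_i(z)/L_i(y), all within 1/4 of -1: MON: all equal, the common value is an
integer (G = (s + ρ)^n, coefficient n ρ rational, monic: rational root theorem), so ρ = 1:
L_i(z) = L_i(y) for all i, two independent linear forms: z = y. -/
def THF_stmt : Prop := ∀ n : ℕ, 1 ≤ n → ∀ ε : ℝ, 0 < ε → ∃ C : ℝ, 1 ≤ C ∧ ∀ H : ℕ, 1 ≤ H →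
  ∀ Φ : ℤ[X], Φ.natDegree ≤ n → (∀ i, |Φ.coeff i| ≤ H) →
  (∀ c α β : ℚ, Φ.map (Int.castRingHom ℚ) ≠
    Polynomial.C c * (Polynomial.C α * X + Polynomial.C β) ^ n) →
  ∀ m : ℤ, m ≠ 0 → |m| ≤ H → ∀ T : Finset (ℤ × ℤ),
  (∀ p ∈ T, IsCoprime p.1 p.2 ∧ |p.1| ≤ H ∧ |p.2| ≤ H ∧ hev n Φ p.1 p.2 = m) →
  (T.card : ℝ) ≤ C * (H : ℝ) ^ ε

/-! ## Part F: the curve is not totally tangent to the conic bundle -/

/-- ROW PA (medium).  Put a(s) = s Ah - Bh, c(s) = Ah - z s Bh in ℚ[s], where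
Ah = hev b A (1 + z s^2) (2 s), Bh = hev b B (1 + z s^2) (2 s).  Identity
2 a c = 2 s (Ah^2 + z Bh^2) - 2 (1 + z s^2) Ah Bh = hev (2b+1) (phi A B z) (1 + z s^2) (2 s)
(phi homogenized: v (Ah^2 + z Bh^2) - 2 u Ah Bh at u = 1 + z s^2, v = 2 s; prove the homogenization
by: hev f F u v = v^f F(u/v) in the field of fractions, or coefficientwise).
If phi = c0 (α X + β)^(2b+1) then this is c0 ℓ^(2b+1), ℓ = α (1 + z s^2) + 2 β s.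
a, c coprime in ℚ[s]: if an irreducible π divides both, then in the field ℚ[s]/π: Ah = z s Bh,
s Ah = Bh, so Ah (1 - z s^2) = 0.  If Ah = 0 then Bh = 0: impossible because A, B coprime of max degree
exactly b have no common projective zero over any field extension and (1 + z s^2, 2 s) ≠ (0,0).
If 1 = z s^2: ℓ = 2 (α + β s) = 0 so β ≠ 0 (phi ≠ 0 gives (α,β) ≠ 0) and s is rational: z = 1/s^2
square of a rational, contradiction (z is not a square).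
Then exists_associated_pow_of_mul_eq_pow' (IsCoprime, a * c up to the constant c0/2 is ℓ^(2b+1)):
c = κ β'^(2b+1) with a constant κ. -/
def PA_stmt : Prop := ∀ (b : ℕ) (z : ℤ) (A B : ℤ[X]), 1 ≤ b → 0 < z → ¬ IsSquare z → Curve b A B →
  phi A B z ≠ 0 →
  ∀ c α β : ℚ, (phi A B z).map (Int.castRingHom ℚ) = C c * (C α * X + C β) ^ (2 * b + 1) →
  ∃ (κ : ℚ) (β' : ℚ[X]),
    hev b A (1 + C (z : ℚ) * X ^ 2) (2 * X) - C (z : ℚ) * X * hev b B (1 + C (z : ℚ) * X ^ 2) (2 * X) =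
      C κ * β' ^ (2 * b + 1)

/-- ROW PV (medium-long).  Valuations in ℚ_q.  z = q q', exactly divisible by q.  q ∤ u (hN, q ∤ D k).
ρ in ℤ_[q] with ρ^2 = D: (u/k)^2 = D mod q, nonzero, q odd (Hensel: hensels_lemma for X^2 - D at
u k^(-1)).  (u - kρ)(u + kρ) = z v^2, the sum 2u is a unit: choose the sign of ρ such that u + kρ is a
unit; then val(u - kρ) = 1 + 2ν, ν = val v.  σ = (u + kρ)/(z v), σ' = (u - kρ)/(z v):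
σ σ' = 1/z, σ + σ' = 2 τ/z, so 1 + z σ^2 = 2 τ σ, same for σ'; val σ = -1-ν, val σ' = ν.
(g - zσ n)(g - zσ' n) = 2 z^d k^2 / v (from hE); g is a unit, val(zσ' n) > 0: g - zσ' n is a unit,
val(g - zσ n) = d - ν.
hev b A (1 + zσ^2) (2σ) = hev b A (2τσ) (2σ) = (2σ)^b A(τ), the same for B and for σ'.
A(τ) ≠ 0 (else B(τ) = 0 by OnCurve and g ≠ 0, not coprime); κ' = g/A(τ), n = κ' B(τ).
The hypothesis evaluated at σ and σ' : (2σ)^b (g - zσ n)/κ' = κ β'(σ)^(2b+1), the same for σ'.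
Quotient, valuations: b (-1-ν-ν) + (d-ν) - 0 = (2b+1) (val β'(σ) - val β'(σ')), so
d - b = (2b+1)(...), and 2d+1 = 2(d-b) + (2b+1) is divisible by 2b+1.
(Use Padic.valuation, Padic.valuation_mul, valuation_pow for nonzero elements, or norms.) -/
def PV_stmt : Prop := ∀ (q q' d b : ℕ) (D k : ℤ) (P : Pt) (A B : ℤ[X]) (κ : ℚ) (β' : ℚ[X]),
  q.Prime → q'.Prime → q ≠ q' → 3 ≤ q → 1 ≤ b → Curve b A B → OnCurve A B P →
  P 3 ≠ 0 → ¬ (q : ℤ) ∣ D → ¬ (q : ℤ) ∣ k → ¬ (q : ℤ) ∣ P 0 →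
  P 2 ^ 2 - (q : ℤ) * q' * P 3 ^ 2 = D * k ^ 2 →
  P 3 * (P 0 ^ 2 + (q : ℤ) * q' * P 1 ^ 2) - 2 * P 2 * P 0 * P 1 = 2 * ((q : ℤ) * q') ^ d * k ^ 2 →
  hev b A (1 + C (((q : ℤ) * q' : ℤ) : ℚ) * X ^ 2) (2 * X) - C (((q : ℤ) * q' : ℤ) : ℚ) * X *
      hev b B (1 + C (((q : ℤ) * q' : ℤ) : ℚ) * X ^ 2) (2 * X) = C κ * β' ^ (2 * b + 1) →
  2 * b + 1 ∣ 2 * d + 1

/-! ## Part G: counting in a cell -/

/-- ROW FSQ (short).  D₁ a² = D₂ b²: WLOG gcd(a,b) = 1 (divide), then a² | D₂, b² | D₁; IsFund.sq_dvd: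
|a|, |b| in {1, 2}, coprime: if a = ±2, b = ±1 then 4 D₁ = D₂ = 4 m with m = 2, 3 mod 4, but D₁ = m is
0 or 1 mod 4.  Symmetric. -/
def FSQ_stmt : Prop := ∀ D₁ D₂ : ℤ, IsFund D₁ → IsFund D₂ → ∀ a b : ℤ, a ≠ 0 → b ≠ 0 →
  D₁ * a ^ 2 = D₂ * b ^ 2 → D₁ = D₂

/-- ROW WFX (medium).  D is determined by its sign and |x|.  x >= 0.  D > 0:
x in [√(4A + X w²), √(4A + 2X w²)], length <= X w²/(4√A) + 1 <= w²/4 + 1.  D < 0: x² in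
[4A - 2X w², 4A - X w²): if 2 X w² <= 3A then x >= √A and the length is <= X w²/(2√A) + 1; otherwise
w² > 3A/(2X) >= 1.5 X and the length is <= √(X w²) + 1 <= w² + 1.  Always <= w² + 1 (X² <= A).
w² | x² - 4A, so helper47's card_roots_le (M = w², H = 4) gives
<= tau(w²) (4 (w²+2)/w² + 1) for each sign. -/
def WFX_stmt : Prop := ∃ C : ℝ, 1 ≤ C ∧ ∀ (X A : ℕ) (w : ℤ), 0 < X → 0 < A → X ^ 2 ≤ A → w ≠ 0 →
  ∀ T : Finset ℤ, (∀ D ∈ T, (X : ℤ) < |D| ∧ |D| ≤ 2 * X ∧ ∃ x : ℤ, x ^ 2 = D * w ^ 2 + 4 * A ∧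
    ∀ h : ℕ, (h : ℤ) ^ 2 ∣ w ^ 2 → (h : ℤ) ∣ 2 * x → h ≤ 4) →
  (T.card : ℝ) ≤ C * (((w.natAbs ^ 2).divisors.card : ℕ) : ℝ)

/-- ROW GNF (medium).  theorem GNF (h : WFX_stmt) : GNF_stmt.  (g : n) is fixed.  g ≠ 0 or n ≠ 0
(hE: k ≠ 0, z ≠ 0).  (g, n) = ± t (g0, n0) with gcd(g0, n0) = 1 fixed and t = gcd(g, n), t² | 2 z^d k²
by hE, so t | 2 z^d k²: at most tau(2 z^d k²) values of t, and w = -(t² (g0² - z n0²))/k is determined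
by t.  For each w WFX (A = z^(2d+1)) gives <= C tau(w²), |w| <= H.  k² <= 25 z <= 25 H. -/
def GNF_stmt : Prop := ∀ (d : ℕ) (ε : ℝ), 0 < ε → ∃ C : ℝ, 1 ≤ C ∧ ∀ H X q₁ q₂ : ℕ, 1 ≤ H → 1 ≤ X →
  q₁.Prime → q₂.Prime → X ^ 2 ≤ (q₁ * q₂) ^ (2 * d + 1) → q₁ * q₂ ≤ H →
  ∀ k A B : ℤ, (A ≠ 0 ∨ B ≠ 0) → ∀ T : Finset ℤ,
  (∀ D ∈ T, ∃ (w x : ℤ) (P : Pt), Tow q₁ q₂ d D k w x P ∧ (X : ℤ) < |D| ∧ |D| ≤ 2 * X ∧ |w| ≤ H ∧
    P 0 * B = P 1 * A) →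
  (T.card : ℝ) ≤ C * (H : ℝ) ^ ε

/-- ROW MC (long).  theorem MC (h1 : RES_stmt) (h2 : THF_stmt) (h3 : PA_stmt) (h4 : PV_stmt)
(h5 : FSQ_stmt) : MC_stmt.  For D in T: (u, v) = t (u', v'), (g, n) = r (g', n') primitive, t, r > 0.
Ah = hev b A u' v', Bh = hev b B u' v' (not both 0: Curve, v' ≠ 0), λ = gcd(Ah, Bh).  OnCurve gives
g Bh = n Ah, so (g', n') = ± (Ah, Bh)/λ.  hE divided by t r²:
v' (g'² + z n'²) - 2 u' g' n' = m0 := 2 z^d k²/(t r²), an integer, divisor of 2 z^d k²; so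
hev (2b+1) (phi A B z) u' v' = v' (Ah² + z Bh²) - 2 u' Ah Bh = λ² m0 =: m ≠ 0, λ | R (RES).
The number of m is <= 2 tau(2 z^d k²) tau(R).  phi A B z is not c (α X + β)^(2b+1) over ℚ: PA + PV
(with one point of T; q = q1, P 0 prime to q1 by hW; z = q1 q2 not a square; phi ≠ 0 as m ≠ 0).  THF
(n = 2b+1, height C H^C) gives <= C H^eps pairs (u', v') for each m.  D is determined by (u' : v'):
D₁ k² = v₁² (τ² - z), D₂ k² = v₂² (τ² - z), FSQ.  If T is empty nothing to do. -/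
def MC_stmt : Prop := ∀ (b d : ℕ), 1 ≤ b → ¬ (2 * b + 1 ∣ 2 * d + 1) → ∀ ε : ℝ, 0 < ε →
  ∃ C : ℝ, 1 ≤ C ∧ ∀ H q₁ q₂ : ℕ, 1 ≤ H → q₁.Prime → q₂.Prime → q₁ ≠ q₂ → 5 ≤ q₁ → 5 ≤ q₂ →
  q₁ * q₂ ≤ H → ∀ k : ℤ, ¬ (q₁ : ℤ) ∣ k → ¬ (q₂ : ℤ) ∣ k → ∀ A B : ℤ[X], Curve b A B →
  (∀ i, |A.coeff i| ≤ H ∧ |B.coeff i| ≤ H) → ∀ T : Finset ℤ,
  (∀ D ∈ T, ∃ (w x : ℤ) (P : Pt), Tow q₁ q₂ d D k w x P ∧ (∀ i, |P i| ≤ H) ∧ OnCurve A B P) →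
  (T.card : ℝ) ≤ C * (H : ℝ) ^ ε

/-- ROW CC (medium).  theorem CC (h1 : CRV_stmt) (h2 : GNF_stmt) (h3 : MC_stmt) (h4 : FSQ_stmt) :
CC_stmt.  CRV for S = {P D | D in T}: R, b', A, B.  T = {D : τ in R} ∪ {D : OnCurve}.  The first set
has at most b elements (τ determines D, FSQ as in MC).  b' = 0: A, B are constants, not both 0
(coprime), GNF.  b' >= 1: MC with H' = C H^C. -/
def CC_stmt : Prop := ∀ (b d : ℕ), (∀ b' : ℕ, 1 ≤ b' → b' ≤ b → ¬ (2 * b' + 1 ∣ 2 * d + 1)) →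
  ∀ ε : ℝ, 0 < ε → ∃ C : ℝ, 1 ≤ C ∧ ∀ H X q₁ q₂ : ℕ, 1 ≤ H → 1 ≤ X → q₁.Prime → q₂.Prime →
  q₁ ≠ q₂ → 5 ≤ q₁ → 5 ≤ q₂ → X ^ 2 ≤ (q₁ * q₂) ^ (2 * d + 1) → q₁ * q₂ ≤ H →
  ∀ k : ℤ, ¬ (q₁ : ℤ) ∣ k → ¬ (q₂ : ℤ) ∣ k → ∀ (T : Finset ℤ) (w x : ℤ → ℤ) (P : ℤ → Pt),
  (∀ D ∈ T, Tow q₁ q₂ d D k (w D) (x D) (P D) ∧ (X : ℤ) < |D| ∧ |D| ≤ 2 * X ∧ |w D| ≤ H ∧
    ∀ i, |P D i| ≤ H) →
  (∀ Q : Ix b → ℤ, (∀ i, Q i ∈ T) → (mat b (fun i => P (Q i))).det = 0) →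
  (T.card : ℝ) ≤ C * (H : ℝ) ^ ε

/-- ROW EXK (short-medium).  The towers with q1 | k (or q2 | k, by symmetry of the statement apply it
twice).  hN: q² | D k², q | z exactly: q | u, then q² | z v², q | v.  u = q u', v = q v', k = q k',
D k'² = u'² - z v'².  k'² <= 25 z/q² <= 400, v'² <= 8X/q² <= 8X/Z², u'² <= 25 z 2X/q² <= 800 X.
v' ≠ 0: at most 6 √X/Z values, u': at most 59 √X, k': at most 40: <= C X/Z values of D. -/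
def EXK_stmt : Prop := ∃ C : ℝ, 1 ≤ C ∧ ∀ Z X q q' : ℕ, 5 ≤ Z → 1 ≤ X → q.Prime → q'.Prime →
  q ≠ q' → Z < q → q ≤ 4 * Z → Z < q' → q' ≤ 4 * Z → ∀ T : Finset ℤ,
  (∀ D ∈ T, |D| ≤ 2 * X ∧ ∃ u v k : ℤ, u ^ 2 - (q : ℤ) * q' * v ^ 2 = D * k ^ 2 ∧ v ≠ 0 ∧ k ≠ 0 ∧
    (q : ℤ) ∣ k ∧ k ^ 2 ≤ 25 * ((q : ℤ) * q') ∧ u ^ 2 ≤ 25 * ((q : ℤ) * q') * |D| ∧
    v ^ 2 ≤ 4 * |D|) →
  (T.card : ℝ) ≤ C * X / Z

/-- the bound for the number of solutions; saving 1/(2+J) -/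
def CountB (p J : ℕ) : Prop := ∃ K : ℕ, 1 ≤ K ∧ ∀ ε : ℝ, 0 < ε → ∃ C : ℝ, 0 ≤ C ∧
  ∀ Z X q₁ q₂ : ℕ, 5 ≤ Z → 1 ≤ X → K * X ≤ Z ^ (2 + J) → q₁.Prime → q₂.Prime → q₁ ≠ q₂ →
  Z < q₁ → q₁ ≤ 4 * Z → Z < q₂ → q₂ ≤ 4 * Z → ∀ T : Finset ℤ,
  (∀ D ∈ T, IsFund D ∧ (X : ℤ) < |D| ∧ |D| ≤ 2 * X ∧ Solu ((q₁ * q₂) ^ p) D) →
  (T.card : ℝ) ≤ C * (Z : ℝ) ^ (1 + J) * (Z : ℝ) ^ ε

/-- ROW CNT (long), helper27.  theorem CNT (h1 : TOW_stmt) (h2 : LAT_stmt) (h3 : VAN_stmt)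
(h4 : CC_stmt) (h5 : EXK_stmt) : CNT_stmt.  Choose a tower for every D.  D with q1 | k or q2 | k: EXK.
Others: label (k, l1, l2, c1, c2, a, e): |k| <= 20 Z, l1 in LAT(|k|), l2 in LAT(k²),
c_i in [0, q_i^j_i) with n = c_i g mod q_i^j_i (g prime to q_i by hW), a, e = the logarithms, <= C log Z
values each.  Every fibre satisfies the hypothesis of CC by VAN. -/
def CNT_stmt : Prop := ∀ b d j₁ j₂ T₁ T₂ : ℕ, 1 ≤ b → 1 ≤ d →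
  (∀ b' : ℕ, 1 ≤ b' → b' ≤ b → ¬ (2 * b' + 1 ∣ 2 * d + 1)) → Num b d j₁ j₂ T₁ T₂ →
  j₁ + j₂ + 1 ≤ 2 * d → CountB (2 * d + 1) (j₁ + j₂)

/-! ## Part H: the amplifier -/

/-- `f D` is the number of elements of order dividing `p` in the class group of discriminant `D` -/
def TorsF (p : ℕ) (f : ℤ → ℕ) : Prop := ∀ (K : Type) [Field K] [NumberField K],
  Module.finrank ℚ K = 2 → f (NumberField.discr K) =
    Nat.card {x : ClassGroup (NumberField.RingOfIntegers K) // x ^ p = 1}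

open Classical in
/-- fundamental discriminants of sign `s` and absolute value in `(X, 2 X]` -/
noncomputable def blk (s : ℤ) (X : ℕ) : Finset ℤ :=
  (Finset.Icc (-(2 * X : ℤ)) (2 * X)).filter
    (fun D => IsFund D ∧ (X : ℤ) < s * D ∧ s * D ≤ 2 * X)

/-- the number of primes in `(Z, 4 Z]` -/
def npr (Z : ℕ) : ℕ := ((Finset.Ioc Z (4 * Z)).filter Nat.Prime).card

open Classical in
/-- the amplifier for the sign `s`.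
ROW AMR (medium-long): theorem AMR : AMP 1.  As helper47 RA/Block.lean block_Z (copy), but the sum over
pairs is bounded by (npr Z)^2 M: use nonexc_bound, card_exc_le, card_ram_lt, and
off p P D = number of pairs with helper47's Sol, Sol -> Solu (D y² <= A gives |D| y² <= 4A);
2 X < Z^p; TorsF gives the torsion count of the field of exists_RQ.
ROW AMI (long): theorem AMI : AMP (-1).  D < 0.  (i) Cauchy-Schwarz over the classes [𝔮]^p (helper47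
Cells: sq_card_le, card_ker_eq): #Cl[p] * |ι|² <= #Cl * #{(i,j) : [𝔮_i]^p = [𝔮_j]^p}, and
#Cl <= #{ideals of norm <= C √|D|} <= C |D|^(1/2+eps) (Minkowski: hmink of helper3's QF or Mathlib
exists_ideal_in_class_of_norm_le, and helper47 card_ideals_le).  (ii) [𝔮_1]^p = [𝔮_2]^p with distinct
norms q1 ≠ q2 gives (α) = 𝔮_1^p 𝔮_2'^p, 4 N(α) = x² - D y² = 4 (q1 q2)^p: Solu (as helper47 coll_eq,
simpler: no signs; |D| y² <= 4A is automatic).  (iii) exceptional D (few split primes): helper47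
Exc.lean with the interval [-2X, -X) instead of (X, 2X] (abs_sum_jacobi_le holds for every interval).
helper3/FT: exists_QF (both signs) gives the field data. -/
def AMP (s : ℤ) : Prop := ∀ ε : ℝ, 0 < ε → ∃ C : ℝ, 1 ≤ C ∧ ∀ p : ℕ, Odd p → ∀ f : ℤ → ℕ,
  TorsF p f → ∀ X : ℕ, 1 ≤ X →
  (∑ D ∈ blk s X, (f D : ℝ) ≤ C * (X : ℝ) ^ (1 / 2 + ε) * X) ∧
  ∀ Z : ℕ, 2 ≤ Z → 2 * X < Z ^ p → 4 * p ≤ npr Z → ∀ M : ℝ, 0 ≤ M →
  (∀ q₁ q₂ : ℕ, q₁.Prime → q₂.Prime → q₁ ≠ q₂ → Z < q₁ → q₁ ≤ 4 * Z → Z < q₂ → q₂ ≤ 4 * Z →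
    ((((blk s X).filter (fun D => Solu ((q₁ * q₂) ^ p) D)).card : ℕ) : ℝ) ≤ M) →
  ∑ D ∈ blk s X, (f D : ℝ) ≤
    C * (X : ℝ) ^ (1 / 2 + ε) * (20 * X / (npr Z : ℝ) + 256 * (Z : ℝ) ^ 2 + 16 * M)

/-- ROW BLK (medium-long).  As helper47 RA/Main.lean block_bound (copy).  a = 1/(2+J) <= 1/3,
Z = ceil ((K X)^a) + 5 for X >= X0 (small X: trivial bound).  K X <= Z^(2+J); 2X < Z^p since
p >= 3 + J, Z >= 5; M = C Z^(1+J+ε) <= C' X^((1+J) a + ε) = C' X^(1 - a + ε);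
X/npr Z <= 4 log(4Z) X/Z (helper47 card_primes_ge), Z² <= C X^(2a) <= C X^(1-a). -/
def BLK_stmt : Prop := ∀ (s : ℤ) (p J : ℕ), (s = 1 ∨ s = -1) → Odd p → J + 3 ≤ p → 1 ≤ J →
  CountB p J → AMP s → ∀ ε : ℝ, 0 < ε → ∃ C : ℝ, 0 ≤ C ∧ ∀ f : ℤ → ℕ, TorsF p f → ∀ X : ℕ,
  1 ≤ X → ∑ D ∈ blk s X, (f D : ℝ) ≤ C * (X : ℝ) ^ (3 / 2 - 1 / (2 + (J : ℝ)) + ε)

open Classical in
/-- ROW SUM (medium).  Dyadic summation, as helper47 RA/Main.lean main_bound (copy), both signs. -/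
def SUM_stmt : Prop := ∀ (p : ℕ) (θ : ℝ), 1 < θ →
  (∀ s : ℤ, (s = 1 ∨ s = -1) → ∃ C : ℝ, 0 ≤ C ∧ ∀ f : ℤ → ℕ, TorsF p f → ∀ X : ℕ,
    1 ≤ X → ∑ D ∈ blk s X, (f D : ℝ) ≤ C * (X : ℝ) ^ θ) →
  ∃ C : ℝ, ∀ f : ℤ → ℕ, TorsF p f → ∀ N : ℕ,
    (∑ D ∈ (Finset.Ioo (0 : ℤ) (N : ℤ)).filter IsFund, (f D : ℝ) ≤ C * (N : ℝ) ^ θ) ∧
    (∑ D ∈ (Finset.Ioo (-(N : ℤ)) (0 : ℤ)).filter IsFund, (f D : ℝ) ≤ C * (N : ℝ) ^ θ)

open Classical in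
/-- the theorem (helper27: FIN from NUM1, NUM3, CNT, AMR, AMI, BLK, SUM) -/
def MAIN_stmt : Prop := ∀ p : ℕ, p.Prime → 7 ≤ p → ∀ ε : ℝ, 0 < ε → ∃ C : ℝ, ∀ f : ℤ → ℕ,
  TorsF p f → ∀ N : ℕ,
    (∑ D ∈ (Finset.Ioo (0 : ℤ) (N : ℤ)).filter IsFund, (f D : ℝ) ≤
      C * (N : ℝ) ^ (3 / 2 - max (2 / ((p : ℝ) + 3)) (3 / ((p : ℝ) + 14)) + ε)) ∧
    (∑ D ∈ (Finset.Ioo (-(N : ℤ)) (0 : ℤ)).filter IsFund, (f D : ℝ) ≤
      C * (N : ℝ) ^ (3 / 2 - max (2 / ((p : ℝ) + 3)) (3 / ((p : ℝ) + 14)) + ε))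

end Pool.Agent.helper27.TD
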