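import Pool.Agent.helper27.TD.Spec

set_option autoImplicit false

/-!
# MP_16912e_nt, general version (uneven splitting), prefix td, rows with a 2

THEOREM.  For every prime p >= 7, M = floor ((4 p^2)^(1/3)), both signs,
  sum over fundamental |D| < N of #Cl(Q(sqrt D))[p]  <=  C N ^ (3/2 - 1/M + eps).
(M <= (p+3)/2 always, M <= (4p^2)^(1/3).)

(q1 q2)^p = L J^2, L = q1^l1 q2^l2, J = q1^j1 q2^j2, l1, l2 odd, l_i + 2 j_i = p, l1 + l2 = 2 l,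
X < |D| <= 2 X, K X <= Z^(l+1), q1, q2 in (Z, 4 Z]: at most C Z^l Z^eps values of D.
File of a row: Pool/Agent/<seat>/TD/XX.lean, import Pool.Agent.helper27.TD.Spec2,
namespace Pool.Agent.helper27.TD, auxiliary lemmas prefixed by the row name.
-/

namespace Pool.Agent.helper27.TD

open Finset Polynomial Pool.Agent.helper47.RA

/-- the parameters -/
structure Par (p q₁ q₂ l₁ l₂ j₁ j₂ : ℕ) : Prop where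
  hq₁ : q₁.Prime
  hq₂ : q₂.Prime
  hne : q₁ ≠ q₂
  h5₁ : 5 ≤ q₁
  h5₂ : 5 ≤ q₂
  odd₁ : Odd l₁
  odd₂ : Odd l₂
  e₁ : l₁ + 2 * j₁ = p
  e₂ : l₂ + 2 * j₂ = p

/-- the integers attached to a solution, `L J² = (q₁ q₂)^p` -/
structure Tw (p q₁ q₂ L J : ℕ) (D k w x : ℤ) (P : Pt) : Prop where
  fund : IsFund D
  sol : x ^ 2 = D * w ^ 2 + 4 * ((q₁ : ℤ) * q₂) ^ p
  prim : ∀ h : ℕ, (h : ℤ) ^ 2 ∣ w ^ 2 → (h : ℤ) ∣ 2 * x → h ≤ 4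
  hN : P 2 ^ 2 - (L : ℤ) * P 3 ^ 2 = D * k ^ 2
  hW : P 0 ^ 2 - (L : ℤ) * P 1 ^ 2 = -(k * w)
  hE : P 3 * (P 0 ^ 2 + (L : ℤ) * P 1 ^ 2) - 2 * P 2 * P 0 * P 1 = 2 * (J : ℤ) * k ^ 2
  v0 : P 3 ≠ 0
  k0 : k ≠ 0
  w0 : w ≠ 0
  hD₁ : ¬ (q₁ : ℤ) ∣ D
  hD₂ : ¬ (q₂ : ℤ) ∣ D
  hw₁ : ¬ (q₁ : ℤ) ∣ w
  hw₂ : ¬ (q₂ : ℤ) ∣ w
  bk : k ^ 2 ≤ 25 * (L : ℤ)
  bu : P 2 ^ 2 ≤ 25 * (L : ℤ) * |D|
  bv : P 3 ^ 2 ≤ 4 * |D|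
  bw : |D| * w ^ 2 ≤ 4 * ((q₁ : ℤ) * q₂) ^ p
  bn : P 1 ^ 2 ≤ 2 * (J : ℤ)
  bg : P 0 ^ 2 ≤ 12 * ((L : ℤ) * J)

/-- ROW TW2 (medium).  theorem TW2 (h : PRE_stmt) : TW2_stmt.
A = (q1 q2)^p = L J^2 (p = 2d+1, PRE with d).  x = -(w s) + 2 A ξ, D = s^2 - 4 A δ.
Substituting in x^2 = D w^2 + 4 A:  (R)  δ w^2 - w s ξ + A ξ^2 = 1.
Dirichlet (Real.exists_int_int_abs_mul_sub_le with s/(2 J), N = floor B, B^2 = 2 J / sqrt|D| >= 1 by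
the hypothesis |D| <= 4 J^2): n, μ with 1 <= n <= N and |x_β| <= 2 J/(N+1), x_β := -s n + 2 J μ.
So n^2 <= 2 J/sqrt|D|, x_β^2 <= 2 J sqrt|D|.  Put
  v = 2 (L J δ n^2 - s μ n + J μ^2)               [2 J v = x_β^2 - D n^2]
  g = μ w - L J ξ n                               [2 J g = w x_β - x n]
  k = - L ξ s n^2 + 2 L J ξ μ n + L δ w n^2 - μ^2 w
                                                  [4 J^2 k = 2 x x_β n - w (x_β^2 + D n^2)]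
  u = - w s μ^2 + L ξ s^2 n^2 - 2 L J ξ s μ n + 2 L J^2 ξ μ^2 - L δ w s n^2
      + 4 L J δ w μ n - 2 L^2 J^2 ξ δ n^2         [4 J^2 u = x (x_β^2 + D n^2) - 2 D w x_β n]
P = (g, n, u, v).  hN, hW, hE are consequences of (R) (linear_combination (coefficient) * (R), or
multiply by 4 J^2 and use the bracketed forms with x^2 = D w^2 + 4 L J^2; all checked numerically;
e.g. g^2 + k w - L n^2 = L n^2 ((R) - 1)).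
v ≠ 0: x_β^2 = D n^2 is impossible (IsFund.not_sq, n ≠ 0).  k ≠ 0: k = 0 gives u^2 = L v^2, v ≠ 0,
impossible since the exponent l1 of q1 in L is odd.
Bounds (real numbers, S = sqrt|D|): x^2 <= 8 A, |w| S <= 2 sqrt A, |x_β^2 ± D n^2| <= 4 J S,
|x_β| n S <= 2 J S, sqrt A = sqrt L J:  |u| <= (2 sqrt 2 + 2) sqrt L S (so u^2 <= 25 L |D|), |k| S has
the same bound (so k^2 <= 25 L), |v| <= 2 S, g^2 <= 12 L J, n^2 <= 2 J. -/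
def TW2_stmt : Prop := ∀ (p q₁ q₂ l₁ l₂ j₁ j₂ : ℕ) (D : ℤ), Par p q₁ q₂ l₁ l₂ j₁ j₂ → 3 ≤ p →
  IsFund D → |D| ≤ 4 * ((q₁ ^ j₁ * q₂ ^ j₂ : ℕ) : ℤ) ^ 2 → Solu ((q₁ * q₂) ^ p) D →
  ∃ (k w x : ℤ) (P : Pt), Tw p q₁ q₂ (q₁ ^ l₁ * q₂ ^ l₂) (q₁ ^ j₁ * q₂ ^ j₂) D k w x P

/-- ROW ZQ (long), helper8.  q odd prime, σ = n/g, τ = v/(2u) modulo a high power of q (g, u units):
σ = τ (1 + L σ^2) mod q^j, so σ = φ(τ) + q^j r with φ(τ) = ∑ Cat(m) L^m τ^(2m+1).  The columns are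
τ^c and φ(τ) τ^c + q^j r τ^c (c <= b), up to units of the rows and powers of 2 of the columns:
mat = A * B with rows of B indexed by τ^i (i <= 2N+1+b) and r τ^c; Cauchy-Binet: every nonzero minor of
B uses τ^0..τ^b, h rows τ^i with i >= b+1 and b+1-h rows r τ^c, and is divisible by
q^(j (b+1-h)) L^(h(h-1)/2). -/
def ZQ_stmt : Prop := ∀ (b l j ρ q : ℕ) (L e : ℤ), q.Prime → q ≠ 2 → 1 ≤ l → (q : ℤ) ^ l ∣ L →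
  (q : ℤ) ^ j ∣ e → (∀ h : ℕ, h ≤ b + 1 → ρ ≤ (b + 1 - h) * j + l * (h * (h - 1) / 2)) →
  ∀ P : Ix b → Pt, (∀ i, ¬ (q : ℤ) ∣ P i 0 ∧ ¬ (q : ℤ) ∣ P i 2 ∧
    P i 3 * (P i 0 ^ 2 + L * P i 1 ^ 2) - 2 * P i 2 * P i 0 * P i 1 = e) →
  (q : ℤ) ^ ρ ∣ (mat b P).det

/-- the numerical condition -/
structure NumG (b l₁ l₂ j₁ j₂ l ρ₁ ρ₂ : ℕ) : Prop where
  hl : l₁ + l₂ = 2 * l
  h₁ : ∀ h : ℕ, h ≤ b + 1 → ρ₁ ≤ (b + 1 - h) * j₁ + l₁ * (h * (h - 1) / 2)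
  h₂ : ∀ h : ℕ, h ≤ b + 1 → ρ₂ ≤ (b + 1 - h) * j₂ + l₂ * (h * (h - 1) / 2)
  hmain : 2 * (b + 1) * (j₁ + j₂) + (b + 1) * (2 * b - 1) * (l + 1) ≤
    2 * (ρ₁ + ρ₂) + 2 * b * (b + 1) * l

/-- ROW VAN2 (medium-long).  theorem VAN2 (h1 : UB_stmt) (h2 : KD_stmt) (h3 : ZQ_stmt) : VAN2_stmt.
(As helper38's VAN.)  L = q1^l1 q2^l2, J = q1^j1 q2^j2, A = (q1 q2)^p = L J^2,
W = 2 √A / √X, |w| <= W (bw), |g^2 - L n^2| = |k| |w| <= |k| W, |u^2 - L v^2| = |D| k^2 <= 2 X k^2.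
q ∤ g: hW and q ∤ k, q ∤ w, q | L.  q ∤ u: hN and q ∤ D, q ∤ k, q | L.
UB with z = L, A = 2^a, B = 2^e gives |det| √L^((b+1)^2) <= C (|k| W)^(b+1) (2 X k^2)^(b(b+1)).
KD (K = |k|) and ZQ for q1 (l1, j1, ρ1), q2 (l2, j2, ρ2), e = 2 J k^2, pairwise coprime:
|k|^((b+1)(2b+1)) q1^ρ1 q2^ρ2 | det.  If det ≠ 0: cancel the power of |k|, square:
q1^(2ρ1) q2^(2ρ2) L^(b(b+1)) <= C' J^(2(b+1)) X^((b+1)(2b-1)), so with Z < q_i <= 4Z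
Z^(2(ρ1+ρ2) + 2b(b+1)l) <= C'' Z^(2(b+1)(j1+j2)) X^((b+1)(2b-1)), contradiction with hmain and
K X <= Z^(l+1) for K > C'' (exponent (b+1)(2b-1) >= 1). -/
def VAN2_stmt : Prop := ∀ b p l₁ l₂ j₁ j₂ l ρ₁ ρ₂ : ℕ, 1 ≤ b → NumG b l₁ l₂ j₁ j₂ l ρ₁ ρ₂ →
  ∃ K : ℕ, 1 ≤ K ∧ ∀ Z X q₁ q₂ : ℕ, 5 ≤ Z → 1 ≤ X → K * X ≤ Z ^ (l + 1) →
  Par p q₁ q₂ l₁ l₂ j₁ j₂ → Z < q₁ → q₁ ≤ 4 * Z → Z < q₂ → q₂ ≤ 4 * Z →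
  ∀ (k a e : ℤ) (m₁ m₂ : ℕ × ℕ × ℕ), ¬ (q₁ : ℤ) ∣ k → ¬ (q₂ : ℤ) ∣ k →
  k.natAbs ∣ m₁.1 ^ 2 * m₁.2.1 → k.natAbs ^ 2 ∣ m₂.1 ^ 2 * m₂.2.1 →
  ∀ (D w x : Ix b → ℤ) (P : Ix b → Pt),
  (∀ i, Tw p q₁ q₂ (q₁ ^ l₁ * q₂ ^ l₂) (q₁ ^ j₁ * q₂ ^ j₂) (D i) k (w i) (x i) (P i) ∧
    (X : ℤ) < |D i| ∧ |D i| ≤ 2 * X ∧
    InLab m₁ (P i 0) (P i 1) ∧ InLab m₂ (P i 2) (P i 3) ∧
    Int.log 2 |(P i 0 : ℝ) + √((q₁ ^ l₁ * q₂ ^ l₂ : ℕ) : ℝ) * P i 1| = a ∧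
    Int.log 2 |(P i 2 : ℝ) + √((q₁ ^ l₁ * q₂ ^ l₂ : ℕ) : ℝ) * P i 3| = e) →
  (mat b P).det = 0

/-- ROW NUMG (medium).  Pure arithmetic.  l = M - 1.  Write M = 4b + 2 + r, r in {-1, 0, 1, 2}
(b >= 1 since M >= 5: M^3 <= 4p^2 < (M+1)^3, p >= 7).  c = (b+1)(M-2b) = ((M+2)^2 - r^2)/8.
M even: l1 = l2 = M-1 (odd); M odd: l1 = M, l2 = M-2.  j_i = (p - l_i)/2, ρ_i = the minimum over
h <= b+1.  hmain for the minimizing h1, h2 is equivalent to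
  (*)  l1 h1^2 + l2 h2^2 - (h1+h2) p + c >= 0.
M even: it suffices Q = 2 l h^2 - 2 p h + c >= 0 for every integer h; 2 l Q = (2lh-p)^2 - (p^2 - 2lc)
> -2l because p^2 < 2l(c+1), i.e. 4p^2 < (M-1)((M+2)^2 - r^2 + 8), which follows from
4p^2 <= M^3+3M^2+3M (r = 0, or r = 2 and M >= 12; M = 8 is p = 13 only, 676 < 728).
M odd: S = M h1^2 + (M-2) h2^2 - (h1+h2)p + c; 4M(M-2) S = (M-2)(2Mh1-p)^2 + M(2(M-2)h2-p)^2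
- (p^2(2M-2) - 4M(M-2)c) > -4M(M-2) because 4p^2(M-1) < M(M-2)(M^2+4M+11) (r = ±1; M >= 7 from
4p^2 <= M^3+3M^2+3M; M = 5 is p = 7 only: 784 < 840).
M <= (p+3)/2: otherwise (p+5)^3 <= 8 M^3 <= 32 p^2, but (p+5)^3 > 32 p^2 for p >= 7.  So
3(M-1)+1 <= 2p, 2b+1 < p, l_i <= p. -/
def NUMG_stmt : Prop := ∀ p M : ℕ, Odd p → 7 ≤ p → M ^ 3 ≤ 4 * p ^ 2 → 4 * p ^ 2 < (M + 1) ^ 3 →
  ∃ b l₁ l₂ j₁ j₂ ρ₁ ρ₂ : ℕ, 1 ≤ b ∧ 2 * b + 1 < p ∧ Odd l₁ ∧ Odd l₂ ∧ l₁ + 2 * j₁ = p ∧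
    l₂ + 2 * j₂ = p ∧ 5 ≤ M ∧ 2 * M ≤ p + 3 ∧ NumG b l₁ l₂ j₁ j₂ (M - 1) ρ₁ ρ₂

/-- ROW PV2 (medium, from helper17's PV).  L = q^l L', q ∤ L', l odd, J = q^j J', q ∤ J'.
ρ in ℤ_[q] with ρ^2 = D, u + kρ a unit, val(u - kρ) = l + 2ν, ν = val v.  σ = (u + kρ)/(L v),
σ' = (u - kρ)/(L v): σ σ' = 1/L, 1 + L σ^2 = 2 τ σ; val σ = -l-ν, val σ' = ν.
(g - Lσ n)(g - Lσ' n) = 2 J k^2 / v; g - Lσ' n is a unit, val(g - Lσ n) = j - ν.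
Quotient of the hypothesis at σ and σ': b(-l-2ν) + (j-ν) = (2b+1)(...), so j = b l mod 2b+1 and
l + 2j = l (2b+1) = 0 mod 2b+1. -/
def PV2_stmt : Prop := ∀ (q l j b : ℕ) (L L' J J' D k : ℤ) (P : Pt) (A B : ℤ[X]) (κ : ℚ)
  (β' : ℚ[X]), q.Prime → 3 ≤ q → 1 ≤ b → 1 ≤ l → L = (q : ℤ) ^ l * L' → ¬ (q : ℤ) ∣ L' →
  J = (q : ℤ) ^ j * J' → ¬ (q : ℤ) ∣ J' → Curve b A B → OnCurve A B P →
  P 3 ≠ 0 → ¬ (q : ℤ) ∣ D → ¬ (q : ℤ) ∣ k → ¬ (q : ℤ) ∣ P 0 →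
  P 2 ^ 2 - L * P 3 ^ 2 = D * k ^ 2 →
  P 3 * (P 0 ^ 2 + L * P 1 ^ 2) - 2 * P 2 * P 0 * P 1 = 2 * J * k ^ 2 →
  hev b A (1 + C (L : ℚ) * X ^ 2) (2 * X) - C (L : ℚ) * X *
      hev b B (1 + C (L : ℚ) * X ^ 2) (2 * X) = C κ * β' ^ (2 * b + 1) →
  2 * b + 1 ∣ l + 2 * j

/-- ROW GN2 (medium, as GNF).  theorem GN2 (h : WFX_stmt) : GN2_stmt.  (g : n) is fixed,
(g, n) ≠ (0,0) by hE.  (g, n) = ± t (g0, n0), t² | 2 J k² by hE, so t | 2 J k²: few values, and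
w = -(t² (g0² - L n0²))/k is determined by t.  For each w WFX (A = (q1 q2)^p) gives <= C tau(w²),
|w| <= H.  k² <= 25 L <= 25 H, J <= H. -/
def GN2_stmt : Prop := ∀ ε : ℝ, 0 < ε → ∃ C : ℝ, 1 ≤ C ∧ ∀ H X p q₁ q₂ L J : ℕ, 1 ≤ H →
  1 ≤ X → q₁.Prime → q₂.Prime → X ^ 2 ≤ (q₁ * q₂) ^ p → 1 ≤ L → L ≤ H → 1 ≤ J → J ≤ H →
  ∀ k A B : ℤ, (A ≠ 0 ∨ B ≠ 0) → ∀ T : Finset ℤ,
  (∀ D ∈ T, ∃ (w x : ℤ) (P : Pt), Tw p q₁ q₂ L J D k w x P ∧ (X : ℤ) < |D| ∧ |D| ≤ 2 * X ∧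
    |w| ≤ H ∧ P 0 * B = P 1 * A) →
  (T.card : ℝ) ≤ C * (H : ℝ) ^ ε

/-- ROW MC2 (long, as MC).  theorem MC2 (h1 : RES_stmt) (h2 : THF_stmt) (h3 : PA_stmt)
(h4 : PV2_stmt) (h5 : FSQ_stmt) : MC2_stmt.  For D in T: (u, v) = t (u', v'), (g, n) = r (g', n')
primitive, t, r > 0.  Ah = hev b A u' v', Bh = hev b B u' v' (not both 0: Curve, v' ≠ 0),
λ = gcd(Ah, Bh).  OnCurve gives g Bh = n Ah, so (g', n') = ± (Ah, Bh)/λ.  hE divided by t r²: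
v' (g'² + L n'²) - 2 u' g' n' = m0 := 2 J k²/(t r²), an integer, divisor of 2 J k²; so
hev (2b+1) (phi A B L) u' v' = v' (Ah² + L Bh²) - 2 u' Ah Bh = λ² m0 =: m ≠ 0, λ | R (RES).
The number of m is <= 2 tau(2 J k²) tau(R).  phi A B L is not c (α X + β)^(2b+1) over ℚ: PA + PV2
(with one point of T; q = q1; q ∤ P 0 by hW; L not a square since l1 is odd; phi ≠ 0 as m ≠ 0;
2b+1 | p is excluded by p prime, 1 < 2b+1 < p).  THF (n = 2b+1, height C H^C) gives <= C H^eps pairs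
(u', v') for each m.  D is determined by (u' : v') (FSQ: D₁ k² = v₁² (τ² - L) etc.). -/
def MC2_stmt : Prop := ∀ (b p l₁ l₂ j₁ j₂ : ℕ), 1 ≤ b → p.Prime → 2 * b + 1 < p → ∀ ε : ℝ, 0 < ε →
  ∃ C : ℝ, 1 ≤ C ∧ ∀ H q₁ q₂ : ℕ, 1 ≤ H → Par p q₁ q₂ l₁ l₂ j₁ j₂ →
  q₁ ^ l₁ * q₂ ^ l₂ ≤ H → q₁ ^ j₁ * q₂ ^ j₂ ≤ H → ∀ k : ℤ, ¬ (q₁ : ℤ) ∣ k → ¬ (q₂ : ℤ) ∣ k →
  ∀ A B : ℤ[X], Curve b A B → (∀ i, |A.coeff i| ≤ H ∧ |B.coeff i| ≤ H) → ∀ T : Finset ℤ,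
  (∀ D ∈ T, ∃ (w x : ℤ) (P : Pt),
    Tw p q₁ q₂ (q₁ ^ l₁ * q₂ ^ l₂) (q₁ ^ j₁ * q₂ ^ j₂) D k w x P ∧ (∀ i, |P i| ≤ H) ∧
    OnCurve A B P) →
  (T.card : ℝ) ≤ C * (H : ℝ) ^ ε

/-- ROW CC2 (medium, as CC).  theorem CC2 (h1 : CRV_stmt) (h2 : GN2_stmt) (h3 : MC2_stmt)
(h4 : FSQ_stmt) : CC2_stmt.  CRV for S = {P D | D in T}: R, b', A, B.  T = {D : τ in R} ∪
{D : OnCurve}.  The first set has at most b elements (τ determines D: D k² = v² (τ² - L), FSQ).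
b' = 0: A, B are constants, not both 0 (coprime), GN2.  b' >= 1: MC2 with b', H' = C H^C. -/
def CC2_stmt : Prop := ∀ (b p l₁ l₂ j₁ j₂ : ℕ), p.Prime → 2 * b + 1 < p → ∀ ε : ℝ, 0 < ε →
  ∃ C : ℝ, 1 ≤ C ∧ ∀ H X q₁ q₂ : ℕ, 1 ≤ H → 1 ≤ X → Par p q₁ q₂ l₁ l₂ j₁ j₂ →
  X ^ 2 ≤ (q₁ * q₂) ^ p → q₁ ^ l₁ * q₂ ^ l₂ ≤ H → q₁ ^ j₁ * q₂ ^ j₂ ≤ H →
  ∀ k : ℤ, ¬ (q₁ : ℤ) ∣ k → ¬ (q₂ : ℤ) ∣ k → ∀ (T : Finset ℤ) (w x : ℤ → ℤ) (P : ℤ → Pt),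
  (∀ D ∈ T, Tw p q₁ q₂ (q₁ ^ l₁ * q₂ ^ l₂) (q₁ ^ j₁ * q₂ ^ j₂) D k (w D) (x D) (P D) ∧
    (X : ℤ) < |D| ∧ |D| ≤ 2 * X ∧ |w D| ≤ H ∧ ∀ i, |P D i| ≤ H) →
  (∀ Q : Ix b → ℤ, (∀ i, Q i ∈ T) → (mat b (fun i => P (Q i))).det = 0) →
  (T.card : ℝ) ≤ C * (H : ℝ) ^ ε

/-- ROW VQ (short-medium).  Valuations at q; l odd, q^l exactly divides L, q ∤ D, q ∤ w.
(1) If q^a | k then q^a | u: otherwise val u < val k, u² = D k² + L v² gives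
val(L v²) = 2 val u, but val(L v²) = l + 2 val v is odd (v ≠ 0).
(2) If q | k then q | v: let a = val k >= 1 and suppose q ∤ v.  By (1) val u >= a, so
val(L v²) = l >= 2a, l >= 2a+1 (odd).  hW: val(g²) = val(L n² - k w) = a (a < l), so val g = a/2.
hE: the left v (g² + L n²) has valuation a, the right 2ugn + 2Jk² has valuation > a. -/
def VQ_stmt : Prop := ∀ (q l : ℕ) (L L' J D k w : ℤ) (P : Pt), q.Prime → 3 ≤ q → Odd l →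
  L = (q : ℤ) ^ l * L' → ¬ (q : ℤ) ∣ L' → ¬ (q : ℤ) ∣ D → ¬ (q : ℤ) ∣ w → k ≠ 0 → P 3 ≠ 0 →
  P 2 ^ 2 - L * P 3 ^ 2 = D * k ^ 2 → P 0 ^ 2 - L * P 1 ^ 2 = -(k * w) →
  P 3 * (P 0 ^ 2 + L * P 1 ^ 2) - 2 * P 2 * P 0 * P 1 = 2 * J * k ^ 2 →
  (∀ a : ℕ, (q : ℤ) ^ a ∣ k → (q : ℤ) ^ a ∣ P 2) ∧ ((q : ℤ) ∣ k → (q : ℤ) ∣ P 3)

/-- ROW SPC (short-medium).  δ± = u ± √z v.  For i in S put r_i = δ- : δ+ quotient (invariant under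
(u,v) -> -(u,v)), |r_i| <= K/B² (|δ+ δ-| = |u² - z v²| <= K, |δ+| >= B).  For i ≠ j
|r_i - r_j| = 2 √z |u_i v_j - u_j v_i| / |δ+_i δ+_j| >= 2 √z Δ/(4B²).  Real numbers in an interval of
length 2K/B² with pairwise distances >= √z Δ/(2B²): at most 1 + 4K/(√z Δ) of them. -/
def SPC_stmt : Prop := ∀ (z B K Δ : ℝ), 0 < z → 0 < B → 0 ≤ K → 0 < Δ → ∀ (S : Finset ℤ)
  (u v : ℤ → ℤ), (∀ i ∈ S, B ≤ |(u i : ℝ) + √z * v i| ∧ |(u i : ℝ) + √z * v i| ≤ 2 * B ∧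
    |(u i : ℝ) ^ 2 - z * (v i : ℝ) ^ 2| ≤ K) →
  (∀ i ∈ S, ∀ j ∈ S, i ≠ j → Δ ≤ |((u i * v j - u j * v i : ℤ) : ℝ)|) →
  (S.card : ℝ) ≤ 1 + 4 * K / (√z * Δ)

/-- ROW EX2 (medium-long).  theorem EX2 (h1 : LAT_stmt) (h2 : VQ_stmt) (h3 : SPC_stmt)
(h4 : FSQ_stmt) : EX2_stmt.  L = q1^l1 q2^l2 <= (4Z)^(2l).  By symmetry q1 | k (treat q2 | k in the
same way: prove the lemma for (q, q') = (q1, q2) and (q2, q1), L = q^l_q q'^l_q').  Choose a tower for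
every D.  |k| = q1^a q2^a' k0, gcd(k0, q1 q2) = 1, a >= 1; |k| <= 5 √L.  Label of D: (k, lattice label
of (u,v) for m = k0² by LAT, e = Int.log 2 |u + √L v|): for fixed k at most C Z^eps labels.  Two
different D in one class have u v' - u' v ≠ 0 (FSQ), divisible by k0² (same label:
u v' - u' v = h² m (...)), by q1^(a+1) (VQ: q1^a | u, q1 | v) and by q2^a'.  SPC with z = L,
K = 2 X k², Δ = k0² q1^(a+1) q2^a' = k0 |k| q1: at most 1 + 8 X |k|/(√L k0 q1) <= 1 + 40 X/(k0 Z)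
values of D.  Sum over k: at most 10 √L/q1 values of k (multiples of q1), and for each k0 <= 5 √L a
bounded number of (sign, a, a') (q^a <= 5 (4Z)^l <= Z^(2l+1)): total
<= C Z^eps (√L/Z + (X/Z) ∑ 1/k0) <= C Z^(2 eps) (Z^(l-1) 4^l + X/Z), X <= Z^(l+1). -/
def EX2_stmt : Prop := ∀ (p l₁ l₂ j₁ j₂ l : ℕ), l₁ + l₂ = 2 * l → ∀ ε : ℝ, 0 < ε →
  ∃ C : ℝ, 0 ≤ C ∧ ∀ Z X q₁ q₂ : ℕ, 5 ≤ Z → 1 ≤ X → X ≤ Z ^ (l + 1) →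
  Par p q₁ q₂ l₁ l₂ j₁ j₂ → Z < q₁ → q₁ ≤ 4 * Z → Z < q₂ → q₂ ≤ 4 * Z → ∀ T : Finset ℤ,
  (∀ D ∈ T, (X : ℤ) < |D| ∧ |D| ≤ 2 * X ∧ ∃ (k w x : ℤ) (P : Pt),
    Tw p q₁ q₂ (q₁ ^ l₁ * q₂ ^ l₂) (q₁ ^ j₁ * q₂ ^ j₂) D k w x P ∧
    ((q₁ : ℤ) ∣ k ∨ (q₂ : ℤ) ∣ k)) →
  (T.card : ℝ) ≤ C * (Z : ℝ) ^ l * (Z : ℝ) ^ ε

/-- ROW CN2 (long), helper27.  theorem CN2 (h1 : TW2_stmt) (h2 : LAT_stmt) (h3 : VAN2_stmt)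
(h4 : CC2_stmt) (h5 : EX2_stmt) : CN2_stmt. -/
def CN2_stmt : Prop := ∀ b p l₁ l₂ j₁ j₂ l ρ₁ ρ₂ : ℕ, 1 ≤ b → p.Prime → 2 * b + 1 < p →
  Odd l₁ → Odd l₂ → l₁ + 2 * j₁ = p → l₂ + 2 * j₂ = p → NumG b l₁ l₂ j₁ j₂ l ρ₁ ρ₂ →
  1 ≤ l → 3 * l + 1 ≤ 2 * p → CountB p (l - 1)

end Pool.Agent.helper27.TD
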